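import Pool.Agent.H26.HK.SumProd

/-!
# MP_e94f6f_an, module SER2: the series is a classical solution
-/

open MeasureTheory Set Filter Topology
open scoped ContDiff

namespace Pool.Agent.H26.HK
open Pool.Agent.H96.HK

lemma gg_le {δ t : ℝ} (hδ : 0 < δ) (ht : δ ≤ t) (x : ℝ) :
    0 ≤ gg t x ∧ gg t x ≤ (√(4 * Real.pi * δ))⁻¹ := by
  unfold gg
  have hπ := Real.pi_pos
  have h1 : 0 < √(4 * Real.pi * δ) := Real.sqrt_pos.mpr (by positivity)
  have h2 : √(4 * Real.pi * δ) ≤ √(4 * Real.pi * t) := Real.sqrt_le_sqrt (by gcongr)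
  have h3 : 0 < √(4 * Real.pi * t) := h1.trans_le h2
  have ht0 : 0 < t := hδ.trans_le ht
  refine ⟨by positivity, ?_⟩
  calc (√(4 * Real.pi * t))⁻¹ * Real.exp (-(x ^ 2 / (4 * t)))
      ≤ (√(4 * Real.pi * δ))⁻¹ * 1 := by
        refine mul_le_mul (inv_anti₀ h1 h2) ?_ (Real.exp_pos _).le (inv_nonneg.mpr h1.le)
        rw [Real.exp_le_one_iff, neg_nonpos]
        positivity
    _ = _ := mul_one _

/-- the kernels are classical solutions -/
lemma kcl (hVM : T_VM) (hML : T_MLK) (hMC : T_MC) {F : ℝ → ℝ} {K : ℕ → ℝ → ℝ → ℝ → ℝ}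
    (hF : Prof F) (hK : Modes F K) (m : ℕ) (r : ℝ) {t : ℝ} (ht : 0 < t) :
    ContDiff ℝ 2 (fun s => K m t s r) ∧
    ∀ s, HasDerivAt (fun τ => K m τ s r)
      (deriv (deriv (fun x => K m t x r)) s - Vm F m s * K m t s r) t := by
  obtain ⟨B, hB1, hB2, hB3⟩ := hK m
  obtain ⟨C, hC, hVC⟩ := hVM F hF
  obtain ⟨hV1, -, hV3⟩ := hVC m
  obtain ⟨C0, hC0, hmc⟩ := hMC
  obtain ⟨hml, -⟩ := hML (Vm F m) B (K m) (Vm_continuous hF m) hB2 hB3
  have h1 : Mild1 (Vm F m) (t / 2) (fun t s => K m t s r) :=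
    ⟨(hml r).cont.mono (by
      intro z hz
      refine ⟨?_, mem_univ _⟩
      have : t / 2 < z.1 := hz.1
      show 0 < z.1
      linarith), fun τ t' h1 h2 s => (hml r).duh τ t' (by linarith) h2 s⟩
  have hCm : 1 ≤ C * (1 + (m : ℝ) ^ 2) := by nlinarith [sq_nonneg (m : ℝ)]
  have h2 := hmc (Vm F m) (C * (1 + (m : ℝ) ^ 2)) (C * (1 + (m : ℝ) ^ 2)) hCm (by linarith)
    hV1 hV3 (t / 2) (2 * t) (Real.exp (B * (2 * t)) * (√(4 * Real.pi * (t / 2)))⁻¹)
    (fun t s => K m t s r) (by linarith) h1 (by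
      intro τ hτ s
      have hτ0 : 0 < τ := by linarith [hτ.1]
      refine (hB3.bdd τ hτ0 s r).trans ?_
      have h3 := gg_le (half_pos ht) hτ.1.le (s - r)
      refine mul_le_mul (Real.exp_le_exp.mpr ?_) h3.2 h3.1 (Real.exp_pos _).le
      exact mul_le_mul_of_nonneg_left hτ.2.le (by linarith))
  have hmem : t ∈ Ioo (t / 2) (2 * t) := ⟨by linarith, by linarith⟩
  exact ⟨h2.1.c2 t hmem, fun s => h2.1.heat t hmem s⟩

/-- the square root factor -/
noncomputable def rh (F : ℝ → ℝ) (s : ℝ) : ℝ := (√(F s))⁻¹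

lemma rh_smooth {F : ℝ → ℝ} (hF : Prof F) : ContDiff ℝ ∞ (rh F) := by
  unfold rh
  have h1 : ContDiff ℝ ∞ (fun s => √(F s)) := hF.smooth.sqrt fun s => (hF.pos s).ne'
  exact h1.inv fun s => (Real.sqrt_pos.mpr (hF.pos s)).ne'

/-- weight of the `n`-th mode -/
noncomputable def wt (F : ℝ → ℝ) (q : X) (n : ℕ) : ℝ :=
  (if n = 0 then 1 else 2) * (Real.pi⁻¹ * (√(F q.1))⁻¹)

lemma wt_nn {F : ℝ → ℝ} (q : X) (n : ℕ) : 0 ≤ wt F q n := by
  unfold wt
  have hπ := Real.pi_pos
  split_ifs <;> positivity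

lemma wt_le {F : ℝ → ℝ} (q : X) (n : ℕ) : wt F q n ≤ 2 * (Real.pi⁻¹ * (√(F q.1))⁻¹) := by
  unfold wt
  have hπ := Real.pi_pos
  have h : 0 ≤ Real.pi⁻¹ * (√(F q.1))⁻¹ := by positivity
  split_ifs
  · linarith
  · exact le_rfl

/-- radial factor -/
noncomputable def va (F : ℝ → ℝ) (K : ℕ → ℝ → ℝ → ℝ → ℝ) (q : X) (t : ℝ) (n : ℕ) (s : ℝ) : ℝ :=
  wt F q n * K (2 * n) t s q.1

noncomputable def fa (F : ℝ → ℝ) (K : ℕ → ℝ → ℝ → ℝ → ℝ) (q : X) (t : ℝ) (n : ℕ) (s : ℝ) : ℝ :=
  rh F s * va F K q t n s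

noncomputable def fa' (F : ℝ → ℝ) (K : ℕ → ℝ → ℝ → ℝ → ℝ) (q : X) (t : ℝ) (n : ℕ) (s : ℝ) : ℝ :=
  deriv (rh F) s * va F K q t n s + rh F s * deriv (va F K q t n) s

noncomputable def fa'' (F : ℝ → ℝ) (K : ℕ → ℝ → ℝ → ℝ → ℝ) (q : X) (t : ℝ) (n : ℕ)
    (s : ℝ) : ℝ :=
  deriv (deriv (rh F)) s * va F K q t n s + deriv (rh F) s * deriv (va F K q t n) s +
    (deriv (rh F) s * deriv (va F K q t n) s + rh F s * deriv (deriv (va F K q t n)) s)

/-- angular factor -/
noncomputable def fb (q : X) (n : ℕ) (φ : ℝ) : ℝ :=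
  Real.cos (((2 * n : ℕ) : ℝ) * φ + -(2 * n * q.2))

noncomputable def fb' (q : X) (n : ℕ) (φ : ℝ) : ℝ :=
  -(2 * n) * Real.sin (((2 * n : ℕ) : ℝ) * φ + -(2 * n * q.2))

noncomputable def fb'' (q : X) (n : ℕ) (φ : ℝ) : ℝ :=
  -((2 * n) ^ 2) * Real.cos (((2 * n : ℕ) : ℝ) * φ + -(2 * n * q.2))

lemma fb_d (q : X) (n : ℕ) (φ : ℝ) : HasDerivAt (fb q n) (fb' q n φ) φ := by
  unfold fb fb'
  have h1 : HasDerivAt (fun φ : ℝ => ((2 * n : ℕ) : ℝ) * φ + -(2 * n * q.2)) (2 * n) φ := by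
    have := ((hasDerivAt_id φ).const_mul ((2 * n : ℕ) : ℝ)).add_const (-(2 * n * q.2))
    refine this.congr_deriv ?_
    push_cast; ring
  refine h1.cos.congr_deriv ?_
  ring

lemma fb'_d (q : X) (n : ℕ) (φ : ℝ) : HasDerivAt (fb' q n) (fb'' q n φ) φ := by
  unfold fb' fb''
  have h1 : HasDerivAt (fun φ : ℝ => ((2 * n : ℕ) : ℝ) * φ + -(2 * n * q.2)) (2 * n) φ := by
    have := ((hasDerivAt_id φ).const_mul ((2 * n : ℕ) : ℝ)).add_const (-(2 * n * q.2))
    refine this.congr_deriv ?_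
    push_cast; ring
  refine (h1.sin.const_mul (-(2 * (n : ℝ)))).congr_deriv ?_
  ring

lemma fb_bd (q : X) (n : ℕ) (φ : ℝ) : |fb q n φ| ≤ 1 + (2 * n) ^ 2 := by
  unfold fb
  refine (Real.abs_cos_le_one _).trans ?_
  have := sq_nonneg (2 * (n : ℝ))
  linarith

lemma fb'_bd (q : X) (n : ℕ) (φ : ℝ) : |fb' q n φ| ≤ 1 + (2 * n) ^ 2 := by
  unfold fb'
  rw [abs_mul, abs_neg, abs_of_nonneg (by positivity : (0 : ℝ) ≤ 2 * n)]
  have h1 := Real.abs_sin_le_one (((2 * n : ℕ) : ℝ) * φ + -(2 * n * q.2))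
  have h2 : (0 : ℝ) ≤ 2 * n := by positivity
  nlinarith [sq_nonneg (2 * (n : ℝ) - 1), mul_le_mul_of_nonneg_left h1 h2]

lemma fb''_bd (q : X) (n : ℕ) (φ : ℝ) : |fb'' q n φ| ≤ 1 + (2 * n) ^ 2 := by
  unfold fb''
  rw [abs_mul, abs_neg, abs_of_nonneg (by positivity : (0 : ℝ) ≤ (2 * n) ^ 2)]
  have h1 := Real.abs_cos_le_one (((2 * n : ℕ) : ℝ) * φ + -(2 * n * q.2))
  have h2 : (0 : ℝ) ≤ (2 * n) ^ 2 := by positivity
  nlinarith [mul_le_mul_of_nonneg_left h1 h2]

/-- majorant -/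
noncomputable def mj (A c : ℝ) (n : ℕ) : ℝ := A * Real.exp (-(c * ((2 * n : ℕ) : ℝ)))

lemma mj_sum {c : ℝ} (hc : 0 < c) (A : ℝ) :
    Summable (fun n => mj A c n * (1 + (2 * (n : ℝ)) ^ 2)) := by
  have h0 := Real.summable_pow_mul_exp_neg_nat_mul 0 (r := 2 * c) (by positivity)
  have h2 := Real.summable_pow_mul_exp_neg_nat_mul 2 (r := 2 * c) (by positivity)
  have h3 := (h0.mul_left A).add (h2.mul_left (4 * A))
  refine h3.congr fun n => ?_
  unfold mj
  have e : -(c * ((2 * n : ℕ) : ℝ)) = -(2 * c) * n := by push_cast; ring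
  rw [e]
  ring

lemma mj_sum0 {c : ℝ} (hc : 0 < c) (A : ℝ) : Summable (mj A c) := by
  have h0 := Real.summable_pow_mul_exp_neg_nat_mul 0 (r := 2 * c) (by positivity)
  refine (h0.mul_left A).congr fun n => ?_
  unfold mj
  have e : -(c * ((2 * n : ℕ) : ℝ)) = -(2 * c) * n := by push_cast; ring
  rw [e]
  ring

/-- bound of a continuous function on a bounded interval -/
lemma bdd_on {f : ℝ → ℝ} (hf : Continuous f) (R : ℝ) : ∃ M, ∀ s, |s| ≤ R → |f s| ≤ M := by
  obtain ⟨M, hM⟩ := (isCompact_Icc (a := -R) (b := R)).exists_bound_of_continuousOn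
    hf.continuousOn
  exact ⟨M, fun s hs => hM s (abs_le.mp hs)⟩

section
variable {F : ℝ → ℝ} {K : ℕ → ℝ → ℝ → ℝ → ℝ}

/-- all bounds needed on `[δ,T] × [-R,R]` -/
lemma main_bd (hVM : T_VM) (hML : T_MLK) (hMC : T_MC) (hKD : T_KDEC) (hF : Prof F)
    (hK : Modes F K) (q : X) {R δ T : ℝ} (hR : 0 < R) (hδ : 0 < δ) (hT : δ < T) :
    ∃ c > 0, ∃ A > 0, ∀ t ∈ Icc δ T,
      SP2 (fa F K q t) (fa' F K q t) (fa'' F K q t) (fb q) (fb' q) (fb'' q) (mj A c)
        (fun n => 1 + (2 * (n : ℝ)) ^ 2) R ∧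
      ∀ n s, |s| < R → |rh F s * (wt F q n * deriv (fun τ => K (2 * n) τ s q.1) t)| ≤ mj A c n := by
  obtain ⟨c, hc, C, hC, hb⟩ := kdec' hKD hF hK hR hδ hT
  have hs := rh_smooth hF
  have hs1 := smooth_deriv hs
  have hs2 := smooth_deriv hs1
  obtain ⟨M0, hM0⟩ := bdd_on hs.continuous R
  obtain ⟨M1, hM1⟩ := bdd_on hs1.continuous R
  obtain ⟨M2, hM2⟩ := bdd_on hs2.continuous R
  set M := max 1 (max M0 (max M1 M2)) with hM
  have hMpos : 1 ≤ M := le_max_left _ _
  have m0 : ∀ s, |s| ≤ R → |rh F s| ≤ M := fun s h =>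
    (hM0 s h).trans ((le_max_left _ _).trans (le_max_right _ _))
  have m1 : ∀ s, |s| ≤ R → |deriv (rh F) s| ≤ M := fun s h =>
    (hM1 s h).trans ((le_max_left _ _).trans ((le_max_right _ _).trans (le_max_right _ _)))
  have m2 : ∀ s, |s| ≤ R → |deriv (deriv (rh F)) s| ≤ M := fun s h =>
    (hM2 s h).trans ((le_max_right _ _).trans ((le_max_right _ _).trans (le_max_right _ _)))
  set k := 2 * (Real.pi⁻¹ * (√(F q.1))⁻¹) with hk
  have hπ := Real.pi_pos
  have hkpos : 0 < k := by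
    have := Real.sqrt_pos.mpr (hF.pos q.1)
    positivity
  refine ⟨c, hc, 4 * (M * (k * C)), by positivity, fun t ht => ?_⟩
  have ht0 : 0 < t := hδ.trans_le ht.1
  -- bounds of va and its derivatives
  have hva : ∀ n, deriv (va F K q t n) = fun s => wt F q n * deriv (fun x => K (2 * n) t x q.1) s := by
    intro n
    funext s
    unfold va
    exact deriv_const_mul_field _
  have hva2 : ∀ n, deriv (deriv (va F K q t n)) =
      fun s => wt F q n * deriv (deriv (fun x => K (2 * n) t x q.1)) s := by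
    intro n
    rw [hva n]
    funext s
    exact deriv_const_mul_field _
  have hE : ∀ n : ℕ, 0 < Real.exp (-(c * ((2 * n : ℕ) : ℝ))) := fun n => Real.exp_pos _
  have v0 : ∀ n s, |s| ≤ R → |va F K q t n s| ≤ k * C * Real.exp (-(c * ((2 * n : ℕ) : ℝ))) := by
    intro n s h
    unfold va
    rw [abs_mul, abs_of_nonneg (wt_nn q n), mul_assoc]
    exact mul_le_mul (wt_le q n) (hb (2 * n) q.1 t ht s h).1 (abs_nonneg _) hkpos.le
  have v1 : ∀ n s, |s| ≤ R → |deriv (va F K q t n) s| ≤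
      k * C * Real.exp (-(c * ((2 * n : ℕ) : ℝ))) := by
    intro n s h
    rw [hva n, abs_mul, abs_of_nonneg (wt_nn q n), mul_assoc]
    exact mul_le_mul (wt_le q n) (hb (2 * n) q.1 t ht s h).2.1 (abs_nonneg _) hkpos.le
  have v2 : ∀ n s, |s| ≤ R → |deriv (deriv (va F K q t n)) s| ≤
      k * C * Real.exp (-(c * ((2 * n : ℕ) : ℝ))) := by
    intro n s h
    rw [hva2 n, abs_mul, abs_of_nonneg (wt_nn q n), mul_assoc]
    exact mul_le_mul (wt_le q n) (hb (2 * n) q.1 t ht s h).2.2.1 (abs_nonneg _) hkpos.le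
  have prod : ∀ {x y E : ℝ}, |x| ≤ M → |y| ≤ k * C * E → 0 ≤ E → |x * y| ≤ M * (k * C) * E := by
    intro x y E hx hy hE
    rw [abs_mul, mul_assoc M]
    exact mul_le_mul hx hy (abs_nonneg _) (by linarith)
  have hcd : ∀ n, ContDiff ℝ 2 (va F K q t n) := fun n => by
    unfold va
    exact contDiff_const.mul (kcl hVM hML hMC hF hK (2 * n) q.1 ht0).1
  have hd0 : ∀ n s, HasDerivAt (va F K q t n) (deriv (va F K q t n) s) s := fun n s =>
    ((hcd n).differentiable (by norm_num) s).hasDerivAt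
  have hcd1 : ∀ n, ContDiff ℝ 1 (deriv (va F K q t n)) := fun n => by
    have h := hcd n
    have e : (2 : WithTop ℕ∞) = 1 + 1 := by norm_num
    rw [e, contDiff_succ_iff_deriv] at h
    exact h.2.2
  have hd1 : ∀ n s, HasDerivAt (deriv (va F K q t n)) (deriv (deriv (va F K q t n)) s) s :=
    fun n s => ((hcd1 n).differentiable (by norm_num) s).hasDerivAt
  have hr0 : ∀ s, HasDerivAt (rh F) (deriv (rh F) s) s := fun s =>
    (hs.differentiable (by norm_num) s).hasDerivAt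
  have hr1 : ∀ s, HasDerivAt (deriv (rh F)) (deriv (deriv (rh F)) s) s := fun s =>
    (hs1.differentiable (by norm_num) s).hasDerivAt
  have hM4 : ∀ n : ℕ, 0 ≤ M * (k * C) * Real.exp (-(c * ((2 * n : ℕ) : ℝ))) := fun n => by
    positivity
  refine ⟨⟨mj_sum hc _, fun n => by unfold mj; positivity, fun n => by positivity, ?_, ?_, ?_,
    fb_d q, fb'_d q, ?_, ?_, ?_, ?_, fb_bd q, fb'_bd q, fb''_bd q⟩, ?_⟩
  · intro n s
    exact (hr0 s).mul (hd0 n s)
  · intro n s
    exact ((hr1 s).mul (hd0 n s)).add ((hr0 s).mul (hd1 n s))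
  · intro n
    unfold fa''
    have c0 := (hcd n).continuous
    have c1 := (hcd1 n).continuous
    have c2 : Continuous (deriv (deriv (va F K q t n))) := by
      have h := hcd1 n
      exact h.continuous_deriv (by norm_num)
    exact ((hs2.continuous.mul c0).add (hs1.continuous.mul c1)).add
      ((hs1.continuous.mul c1).add (hs.continuous.mul c2))
  · intro n
    unfold fb''
    fun_prop
  · intro n s h
    have h1 := prod (m0 s h.le) (v0 n s h.le) (hE n).le
    unfold fa mj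
    have := hM4 n
    linarith
  · intro n s h
    have h1 := prod (m1 s h.le) (v0 n s h.le) (hE n).le
    have h2 := prod (m0 s h.le) (v1 n s h.le) (hE n).le
    unfold fa' mj
    have := hM4 n
    refine (abs_add_le _ _).trans ?_
    linarith
  · intro n s h
    have h1 := prod (m2 s h.le) (v0 n s h.le) (hE n).le
    have h2 := prod (m1 s h.le) (v1 n s h.le) (hE n).le
    have h3 := prod (m0 s h.le) (v2 n s h.le) (hE n).le
    unfold fa'' mj
    refine (abs_add_le _ _).trans ?_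
    have h4 := abs_add_le (deriv (deriv (rh F)) s * va F K q t n s)
      (deriv (rh F) s * deriv (va F K q t n) s)
    have h5 := abs_add_le (deriv (rh F) s * deriv (va F K q t n) s)
      (rh F s * deriv (deriv (va F K q t n)) s)
    linarith
  · intro n s h
    have h1 : |wt F q n * deriv (fun τ => K (2 * n) τ s q.1) t| ≤
        k * C * Real.exp (-(c * ((2 * n : ℕ) : ℝ))) := by
      rw [abs_mul, abs_of_nonneg (wt_nn q n), mul_assoc]
      exact mul_le_mul (wt_le q n) (hb (2 * n) q.1 t ht s h.le).2.2.2 (abs_nonneg _) hkpos.le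
    have h2 := prod (m0 s h.le) h1 (hE n).le
    unfold mj
    have := hM4 n
    linarith

/-- the kernel as a series of products -/
lemma HW_eq (hKD : T_KDEC) (hF : Prof F) (hK : Modes F K) (q : X) {t : ℝ} (ht : 0 < t) (p : X) :
    HW F K t p q = SP (fa F K q t) (fb q) p := by
  obtain ⟨c, hc, C, hC, hb⟩ := kdec' hKD hF hK (R := |p.1| + 1) (by positivity)
    (half_pos ht) (show t / 2 < 2 * t by linarith)
  have hsum : Summable (fun n => fa F K q t n p.1 * fb q n p.2) := by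
    refine Summable.of_norm_bounded
      ((mj_sum0 hc C).mul_left (|rh F p.1| * (2 * (Real.pi⁻¹ * (√(F q.1))⁻¹)))) fun n => ?_
    unfold fa va mj
    rw [Real.norm_eq_abs, abs_mul, abs_mul, abs_mul, abs_of_nonneg (wt_nn q n)]
    have h1 := (hb (2 * n) q.1 t ⟨by linarith, by linarith⟩ p.1 (by linarith)).1
    have h2 : |fb q n p.2| ≤ 1 := by unfold fb; exact Real.abs_cos_le_one _
    have hπ := Real.pi_pos
    calc |rh F p.1| * (wt F q n * |K (2 * n) t p.1 q.1|) * |fb q n p.2|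
        ≤ |rh F p.1| * (wt F q n * |K (2 * n) t p.1 q.1|) * 1 := by
          refine mul_le_mul_of_nonneg_left h2 ?_
          have := wt_nn (F := F) q n
          positivity
      _ = |rh F p.1| * (wt F q n * |K (2 * n) t p.1 q.1|) := mul_one _
      _ ≤ |rh F p.1| * ((2 * (Real.pi⁻¹ * (√(F q.1))⁻¹)) *
            (C * Real.exp (-(c * ((2 * n : ℕ) : ℝ))))) := by
          refine mul_le_mul_of_nonneg_left ?_ (abs_nonneg _)
          exact mul_le_mul (wt_le q n) h1 (abs_nonneg _) (by positivity)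
      _ = _ := by ring
  unfold SP
  rw [hsum.tsum_eq_zero_add]
  unfold HW
  have e0 : fa F K q t 0 p.1 * fb q 0 p.2 =
      Real.pi⁻¹ * (√(F p.1 * F q.1))⁻¹ * K 0 t p.1 q.1 := by
    unfold fa fb va wt rh
    rw [Real.sqrt_mul (hF.pos _).le, mul_inv]
    simp
    ring
  have e1 : ∀ n : ℕ, fa F K q t (n + 1) p.1 * fb q (n + 1) p.2 =
      Real.pi⁻¹ * (√(F p.1 * F q.1))⁻¹ * 2 *
        (Real.cos (2 * (n + 1) * (p.2 - q.2)) * K (2 * (n + 1)) t p.1 q.1) := by
    intro n
    unfold fa fb va wt rh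
    rw [Real.sqrt_mul (hF.pos _).le, mul_inv, if_neg (Nat.succ_ne_zero n)]
    have : ((2 * (n + 1) : ℕ) : ℝ) * p.2 + -(2 * ((n + 1 : ℕ) : ℝ) * q.2) =
      2 * (n + 1) * (p.2 - q.2) := by push_cast; ring
    rw [this]
    ring
  rw [e0, tsum_congr e1, tsum_mul_left]
  ring

/-- `LB` of a product of functions of one variable -/
lemma LB_single {a a' a'' b b' b'' : ℝ → ℝ} (ha : ∀ s, HasDerivAt a (a' s) s)
    (ha' : ∀ s, HasDerivAt a' (a'' s) s) (hb : ∀ s, HasDerivAt b (b' s) s)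
    (hb' : ∀ s, HasDerivAt b' (b'' s) s) (p : X) :
    LB F (fun p => a p.1 * b p.2) p =
      a'' p.1 * b p.2 + deriv F p.1 / F p.1 * (a' p.1 * b p.2) + a p.1 * b'' p.2 / F p.1 ^ 2 := by
  have e1 : ds (fun p : X => a p.1 * b p.2) = fun p => a' p.1 * b p.2 := by
    funext p
    unfold ds
    exact ((ha p.1).mul_const (b p.2)).deriv
  have e2 : dp (fun p : X => a p.1 * b p.2) = fun p => a p.1 * b' p.2 := by
    funext p
    unfold dp
    exact ((hb p.2).const_mul (a p.1)).deriv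
  have e3 : ds (fun p : X => a' p.1 * b p.2) = fun p => a'' p.1 * b p.2 := by
    funext p
    unfold ds
    exact ((ha' p.1).mul_const (b p.2)).deriv
  have e4 : dp (fun p : X => a p.1 * b' p.2) = fun p => a p.1 * b'' p.2 := by
    funext p
    unfold dp
    exact ((hb' p.2).const_mul (a p.1)).deriv
  unfold LB
  rw [e1, e2, e3, e4]

/-- `HW` is a classical solution -/
theorem HW_cl (hVM : T_VM) (hML : T_MLK) (hMC : T_MC) (hKD : T_KDEC) (hSE : T_SEP) (hF : Prof F)
    (hK : Modes F K) (q : X) : Cl F (fun t p => HW F K t p q) := by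
  have hHW : ∀ t > 0, (fun p => HW F K t p q) = SP (fa F K q t) (fb q) := fun t ht =>
    funext fun p => HW_eq hKD hF hK q ht p
  constructor
  · intro t ht
    show ContDiff ℝ 2 (fun p => HW F K t p q)
    rw [hHW t ht, contDiff_iff_contDiffAt]
    intro p
    obtain ⟨c, hc, A, hA, h⟩ := main_bd hVM hML hMC hKD hF hK q (R := |p.1| + 1) (by positivity)
      (half_pos ht) (show t / 2 < 2 * t by linarith)
    exact (h t ⟨by linarith, by linarith⟩).1.contDiffAt (by linarith)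
  · intro t ht p
    show HasDerivAt (fun τ => HW F K τ p q) (LB F (fun p => HW F K t p q) p) t
    obtain ⟨c, hc, A, hA, h⟩ := main_bd hVM hML hMC hKD hF hK q (R := |p.1| + 1) (by positivity)
      (half_pos ht) (show t / 2 < 2 * t by linarith)
    have hmem : t ∈ Icc (t / 2) (2 * t) := ⟨by linarith, by linarith⟩
    have hp : |p.1| < |p.1| + 1 := by linarith
    obtain ⟨h2, h3⟩ := h t hmem
    rw [hHW t ht, h2.LB F hp]
    -- termwise heat equation
    have hterm : ∀ n : ℕ, fa'' F K q t n p.1 * fb q n p.2 +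
        deriv F p.1 / F p.1 * (fa' F K q t n p.1 * fb q n p.2) +
        fa F K q t n p.1 * fb'' q n p.2 / F p.1 ^ 2 =
        rh F p.1 * (wt F q n * deriv (fun τ => K (2 * n) τ p.1 q.1) t) * fb q n p.2 := by
      intro n
      have e1 := LB_single (F := F) (h2.ha n) (h2.ha' n) (h2.hb n) (h2.hb' n) p
      rw [← e1]
      obtain ⟨k1, k2⟩ := kcl hVM hML hMC hF hK (2 * n) q.1 ht
      have hcd : ContDiff ℝ 2 (va F K q t n) := by
        unfold va
        exact contDiff_const.mul k1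
      have e2 := (hSE F hF (2 * n) (va F K q t n) (-(2 * n * q.2)) p hcd).2
      have e3 : (fun p : X => fa F K q t n p.1 * fb q n p.2) =
          (fun p : X => (√(F p.1))⁻¹ * va F K q t n p.1 *
            Real.cos (((2 * n : ℕ) : ℝ) * p.2 + -(2 * n * q.2))) := by
        funext p
        unfold fa fb rh
        ring
      rw [e3, e2]
      have e4 : deriv (deriv (va F K q t n)) p.1 =
          wt F q n * deriv (deriv (fun x => K (2 * n) t x q.1)) p.1 := by
        have h1 : deriv (va F K q t n) =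
            fun s => wt F q n * deriv (fun x => K (2 * n) t x q.1) s := by
          funext s
          unfold va
          exact deriv_const_mul_field _
        rw [h1]
        exact deriv_const_mul_field _
      rw [e4, (k2 p.1).deriv]
      unfold va fb rh
      ring
    rw [tsum_congr hterm]
    have hder := hasDerivAt_tsum_of_isPreconnected (𝕜 := ℝ)
      (g := fun n τ => rh F p.1 * (wt F q n * K (2 * n) τ p.1 q.1) * fb q n p.2)
      (g' := fun n τ => rh F p.1 * (wt F q n * deriv (fun τ => K (2 * n) τ p.1 q.1) τ) * fb q n p.2)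
      (u := mj A c) (mj_sum0 hc A) (isOpen_Ioo (a := t / 2) (b := 2 * t))
      (convex_Ioo _ _).isPreconnected ?_ ?_ (y₀ := t) ⟨by linarith, by linarith⟩ ?_
      (y := t) ⟨by linarith, by linarith⟩
    · refine hder.congr_of_eventuallyEq ?_
      filter_upwards [lt_mem_nhds ht] with τ hτ
      rw [HW_eq hKD hF hK q hτ p]
      rfl
    · intro n τ hτ
      have hτ0 : 0 < τ := by linarith [hτ.1]
      have k2 := (kcl hVM hML hMC hF hK (2 * n) q.1 hτ0).2 p.1
      have k3 : HasDerivAt (fun τ => K (2 * n) τ p.1 q.1)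
          (deriv (fun τ => K (2 * n) τ p.1 q.1) τ) τ := k2.differentiableAt.hasDerivAt
      exact ((k3.const_mul _).const_mul _).mul_const _
    · intro n τ hτ
      have h4 := (h τ ⟨hτ.1.le, hτ.2.le⟩).2 n p.1 hp
      rw [norm_mul, Real.norm_eq_abs, Real.norm_eq_abs]
      have h5 : |fb q n p.2| ≤ 1 := by unfold fb; exact Real.abs_cos_le_one _
      calc |rh F p.1 * (wt F q n * deriv (fun τ => K (2 * n) τ p.1 q.1) τ)| * |fb q n p.2|
          ≤ |rh F p.1 * (wt F q n * deriv (fun τ => K (2 * n) τ p.1 q.1) τ)| * 1 :=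
            mul_le_mul_of_nonneg_left h5 (abs_nonneg _)
        _ ≤ _ := by rw [mul_one]; exact h4
    · exact h2.s00.summable hp

end

/-- sums of classical solutions -/
lemma Cl.add' {F : ℝ → ℝ} {u w : ℝ → X → ℝ} (hu : Cl F u) (hw : Cl F w) :
    Cl F (fun t p => u t p + w t p) := by
  constructor
  · intro t ht
    exact (hu.c2 t ht).add (hw.c2 t ht)
  · intro t ht p
    refine ((hu.heat t ht p).add (hw.heat t ht p)).congr_deriv ?_
    have cu := hu.c2 t ht
    have cw := hw.c2 t ht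
    have l1 : ∀ {f : X → ℝ}, ContDiff ℝ 2 f → ∀ (p : X), DifferentiableAt ℝ (fun a => f (a, p.2)) p.1 := by
      intro f hf p
      have : ContDiff ℝ 2 (fun a : ℝ => f (a, p.2)) := hf.comp (by fun_prop)
      exact this.differentiable (by norm_num) _
    have l2 : ∀ {f : X → ℝ}, ContDiff ℝ 2 f → ∀ (p : X), DifferentiableAt ℝ (fun b => f (p.1, b)) p.2 := by
      intro f hf p
      have : ContDiff ℝ 2 (fun b : ℝ => f (p.1, b)) := hf.comp (by fun_prop)
      exact this.differentiable (by norm_num) _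
    have l3 : ∀ {f : X → ℝ}, ContDiff ℝ 2 f → ∀ (p : X),
        DifferentiableAt ℝ (fun a => ds f (a, p.2)) p.1 := by
      intro f hf p
      have h1 : ContDiff ℝ 2 (fun a : ℝ => f (a, p.2)) := hf.comp (by fun_prop)
      have e : (2 : WithTop ℕ∞) = 1 + 1 := by norm_num
      rw [e, contDiff_succ_iff_deriv] at h1
      exact h1.2.2.differentiable (by norm_num) _
    have l4 : ∀ {f : X → ℝ}, ContDiff ℝ 2 f → ∀ (p : X),
        DifferentiableAt ℝ (fun b => dp f (p.1, b)) p.2 := by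
      intro f hf p
      have h1 : ContDiff ℝ 2 (fun b : ℝ => f (p.1, b)) := hf.comp (by fun_prop)
      have e : (2 : WithTop ℕ∞) = 1 + 1 := by norm_num
      rw [e, contDiff_succ_iff_deriv] at h1
      exact h1.2.2.differentiable (by norm_num) _
    have s1 : ds (fun p => u t p + w t p) = fun p => ds (u t) p + ds (w t) p := by
      funext p
      exact deriv_fun_add (l1 cu p) (l1 cw p)
    have s2 : dp (fun p => u t p + w t p) = fun p => dp (u t) p + dp (w t) p := by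
      funext p
      exact deriv_fun_add (l2 cu p) (l2 cw p)
    have s3 : ds (fun p => ds (u t) p + ds (w t) p) p = ds (ds (u t)) p + ds (ds (w t)) p :=
      deriv_fun_add (l3 cu p) (l3 cw p)
    have s4 : dp (fun p => dp (u t) p + dp (w t) p) p = dp (dp (u t)) p + dp (dp (w t)) p :=
      deriv_fun_add (l4 cu p) (l4 cw p)
    show LB F (u t) p + LB F (w t) p = LB F (fun p => u t p + w t p) p
    unfold LB
    rw [s1, s2, s3, s4]
    ring

theorem ser2 (hVM : T_VM) (hML : T_MLK) (hMC : T_MC) (hKD : T_KDEC) (hSE : T_SEP) : T_SER2 := by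
  intro F K hF hK q
  exact Cl.add' (HW_cl hVM hML hMC hKD hSE hF hK q) (HW_cl hVM hML hMC hKD hSE hF hK (g0 q))

end Pool.Agent.H26.HK
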