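import Pool.Agent.H26.HK.SER1
import Pool.Agent.H26.HK.SER2

/-!
# MP_e94f6f_an, module PD: evolution of trigonometric polynomials
-/

open MeasureTheory Set Filter Topology
open scoped ContDiff

namespace Pool.Agent.H26.HK
open Pool.Agent.H96.HK

section
variable {F : ℝ → ℝ} {K : ℕ → ℝ → ℝ → ℝ → ℝ}

/-! ### classical solutions by separation -/

lemma Cl_zero : Cl F (fun _ _ => 0) := by
  constructor
  · intro t _
    exact contDiff_const
  · intro t _ p
    have : LB F (fun _ : X => (0 : ℝ)) p = 0 := by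
      unfold LB
      have h1 : ds (fun _ : X => (0 : ℝ)) = fun _ => 0 := by
        funext p; unfold ds; simp
      have h2 : dp (fun _ : X => (0 : ℝ)) = fun _ => 0 := by
        funext p; unfold dp; simp
      rw [h1, h2, h1, h2]
      simp
    show HasDerivAt (fun _ : ℝ => (0 : ℝ)) (LB F (fun _ : X => (0 : ℝ)) p) t
    rw [this]
    exact hasDerivAt_const _ _

lemma Cl_sum {ι : Type*} (s : Finset ι) {u : ι → ℝ → X → ℝ} (h : ∀ i ∈ s, Cl F (u i)) :
    Cl F (fun t p => ∑ i ∈ s, u i t p) := by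
  classical
  induction s using Finset.induction_on with
  | empty => simpa using Cl_zero
  | insert i s hi ih =>
    have h1 := Cl.add' (h i (Finset.mem_insert_self _ _))
      (ih fun j hj => h j (Finset.mem_insert_of_mem hj))
    simpa [Finset.sum_insert hi] using h1

lemma Cl_sep (hSE : T_SEP) (hF : Prof F) (m : ℕ) (κ : ℝ) {v : ℝ → ℝ → ℝ}
    (hv : ∀ T, Cl1 (Vm F m) 0 T v) :
    Cl F (fun t p => (√(F p.1))⁻¹ * v t p.1 * Real.cos (m * p.2 + κ)) := by
  constructor
  · intro t ht
    exact (hSE F hF m (v t) κ (0, 0) ((hv (t + 1)).c2 t ⟨ht, by linarith⟩)).1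
  · intro t ht p
    have h1 := (hv (t + 1)).c2 t ⟨ht, by linarith⟩
    have h2 := (hv (t + 1)).heat t ⟨ht, by linarith⟩ p.1
    have h3 := (hSE F hF m (v t) κ p h1).2
    show HasDerivAt (fun τ => (√(F p.1))⁻¹ * v τ p.1 * Real.cos (m * p.2 + κ))
      (LB F (fun p => (√(F p.1))⁻¹ * v t p.1 * Real.cos (m * p.2 + κ)) p) t
    rw [h3]
    exact (h2.const_mul _).mul_const _

/-- facts on `app` for the modes -/
lemma app_facts (hVM : T_VM) (hAP : T_APP) (hF : Prof F) (hK : Modes F K) (m : ℕ) {α : ℝ → ℝ}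
    (hα : Continuous α) (hα2 : HasCompactSupport α) :
    ContinuousOn (fun z : ℝ × ℝ => app (K m) α z.1 z.2) (Ici 0 ×ˢ univ) ∧
    (∀ T, Cl1 (Vm F m) 0 T (app (K m) α)) ∧
    ∀ T > 0, ∀ ε > 0, ∃ R, ∀ t ∈ Icc 0 T, ∀ s, R ≤ |s| → |app (K m) α t s| ≤ ε := by
  obtain ⟨B, hB1, hB2, hB3⟩ := hK m
  obtain ⟨C, hC, hVC⟩ := hVM F hF
  exact hAP (Vm F m) B (C * (1 + (m : ℝ) ^ 2)) (K m) hB1 hB2 (hVC m).2.2 hB3 α hα hα2

/-- parity of `app` -/
lemma app_neg (hE : T_KEV) (hF : Prof F) (hK : Modes F K) (m n : ℕ) {α : ℝ → ℝ}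
    (hα : ∀ s, α (-s) = (-1) ^ n * α s) (t s : ℝ) :
    app (K m) α t (-s) = (-1) ^ n * app (K m) α t s := by
  unfold app
  split_ifs with h
  · exact hα s
  · rw [← integral_neg_eq_self (fun r => K m t (-s) r * α r), ← integral_const_mul]
    congr 1
    funext r
    rw [kev' hE hF hK m (not_le.mp h), hα r]
    ring

lemma cos_shift (n : ℕ) (φ : ℝ) : Real.cos (2 * n * (φ + Real.pi / 2)) =
    (-1) ^ n * Real.cos (2 * n * φ) := by
  have : 2 * (n : ℝ) * (φ + Real.pi / 2) = 2 * n * φ + n * Real.pi := by ring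
  rw [this, Real.cos_add_nat_mul_pi]

lemma sin_shift (n : ℕ) (φ : ℝ) : Real.sin (2 * n * (φ + Real.pi / 2)) =
    (-1) ^ n * Real.sin (2 * n * φ) := by
  have : 2 * (n : ℝ) * (φ + Real.pi / 2) = 2 * n * φ + n * Real.pi := by ring
  rw [this, Real.sin_add_nat_mul_pi]

lemma neg_one_pow_sq (n : ℕ) : ((-1 : ℝ) ^ n) * (-1) ^ n = 1 := by
  rw [← mul_pow]; norm_num

lemma trg_GInv {a b : ℕ → ℝ → ℝ} (ha : Coef a) (hb : Coef b) (N : ℕ) : GInv (trg N a b) := by
  intro p
  unfold trg g0
  refine Finset.sum_congr rfl fun n _ => ?_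
  simp only
  rw [cos_shift, sin_shift, (ha n).2.2, (hb n).2.2]
  have := neg_one_pow_sq n
  linear_combination (a n p.1 * Real.cos (2 * n * p.2) + b n p.1 * Real.sin (2 * n * p.2)) * this

/-! ### the Fourier integrals -/

lemma int_cos (c : ℝ) (j : ℤ) (hj : j ≠ 0) :
    ∫ x in (0 : ℝ)..Real.pi, Real.cos (c + 2 * j * x) = 0 := by
  have hj' : (2 * (j : ℝ)) ≠ 0 := by
    have : (j : ℝ) ≠ 0 := Int.cast_ne_zero.mpr hj
    positivity
  have h : ∀ x ∈ uIcc (0 : ℝ) Real.pi,
      HasDerivAt (fun x => Real.sin (c + 2 * j * x) / (2 * j)) (Real.cos (c + 2 * j * x)) x := by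
    intro x _
    have h1 : HasDerivAt (fun x : ℝ => c + 2 * j * x) (2 * j) x := by
      simpa using ((hasDerivAt_id x).const_mul (2 * (j : ℝ))).const_add c
    refine (h1.sin.div_const (2 * (j : ℝ))).congr_deriv ?_
    field_simp
  rw [intervalIntegral.integral_eq_sub_of_hasDerivAt h
    (Continuous.intervalIntegrable (by fun_prop) _ _)]
  have : c + 2 * j * Real.pi = c + j * (2 * Real.pi) := by ring
  rw [this, Real.sin_add_int_mul_two_pi]
  simp

/-- orthogonality -/
lemma ortho (k n : ℕ) (φ θ : ℝ) :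
    (if k = 0 then 1 else 2) * Real.pi⁻¹ *
      ∫ x in (0 : ℝ)..Real.pi, Real.cos (((2 * k : ℕ) : ℝ) * φ + -(2 * k * x)) *
        Real.cos (2 * n * x + θ) =
      if k = n then Real.cos (2 * n * φ + θ) else 0 := by
  have hπ := Real.pi_pos.ne'
  have e : ∀ x : ℝ, Real.cos (((2 * k : ℕ) : ℝ) * φ + -(2 * k * x)) *
      Real.cos (2 * n * x + θ) =
      (1 / 2) * Real.cos ((2 * k * φ + θ) + 2 * ((n : ℤ) - (k : ℤ) : ℤ) * x) +
      (1 / 2) * Real.cos ((2 * k * φ - θ) + 2 * (-((n : ℤ) + (k : ℤ)) : ℤ) * x) := by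
    intro x
    have h1 : (2 * k * φ + θ) + 2 * (((n : ℤ) - (k : ℤ) : ℤ) : ℝ) * x =
        (((2 * k : ℕ) : ℝ) * φ + -(2 * k * x)) + (2 * n * x + θ) := by push_cast; ring
    have h2 : (2 * k * φ - θ) + 2 * ((-((n : ℤ) + (k : ℤ)) : ℤ) : ℝ) * x =
        (((2 * k : ℕ) : ℝ) * φ + -(2 * k * x)) - (2 * n * x + θ) := by push_cast; ring
    rw [h1, h2]
    generalize ((2 * k : ℕ) : ℝ) * φ + -(2 * k * x) = A
    generalize 2 * (n : ℝ) * x + θ = B
    rw [Real.cos_add, Real.cos_sub]
    ring
  simp_rw [e]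
  rw [intervalIntegral.integral_add (Continuous.intervalIntegrable (by fun_prop) _ _)
    (Continuous.intervalIntegrable (by fun_prop) _ _),
    intervalIntegral.integral_const_mul, intervalIntegral.integral_const_mul]
  by_cases hkn : k = n
  · subst hkn
    rw [if_pos rfl]
    have e1 : ∫ x in (0 : ℝ)..Real.pi,
        Real.cos ((2 * k * φ + θ) + 2 * (((k : ℤ) - (k : ℤ) : ℤ) : ℝ) * x) =
        Real.pi * Real.cos (2 * k * φ + θ) := by
      simp
    rw [e1]
    by_cases hk : k = 0
    · subst hk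
      simp
      field_simp
      norm_num
      ring
    · rw [int_cos _ _ (by omega), if_neg hk]
      field_simp
      ring
  · rw [if_neg hkn, int_cos _ _ (by omega), int_cos _ _ (by omega)]
    simp

/-- the factor of the `k`-th mode -/
lemma HW_eq' (hKD : T_KDEC) (hF : Prof F) (hK : Modes F K) (z : X) {t : ℝ} (ht : 0 < t) (p : X) :
    HW F K t p z = ∑' k, rh F p.1 * (wt F z k * K (2 * k) t p.1 z.1) *
      Real.cos (((2 * k : ℕ) : ℝ) * p.2 + -(2 * k * z.2)) := HW_eq hKD hF hK z ht p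

lemma hcs_sum {f : ℕ → ℝ → ℝ} (h : ∀ n, HasCompactSupport (f n)) (N : ℕ) :
    HasCompactSupport (fun s => ∑ n ∈ Finset.range N, f n s) := by
  induction N with
  | zero =>
    simp only [Finset.range_zero, Finset.sum_empty]
    exact HasCompactSupport.zero
  | succ n ih =>
    simp only [Finset.sum_range_succ]
    exact HasCompactSupport.add ih (h n)

/-- integral of the kernel against a trigonometric monomial in the angle -/
lemma inner (hKD : T_KDEC) (hF : Prof F) (hK : Modes F K) {t : ℝ} (ht : 0 < t) (p : X) (r : ℝ)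
    (n : ℕ) (θ : ℝ) :
    ∫ x in Ioc (0 : ℝ) Real.pi, HW F K t p (r, x) * Real.cos (2 * n * x + θ) =
      rh F p.1 * (rh F r * K (2 * n) t p.1 r) * Real.cos (2 * n * p.2 + θ) := by
  obtain ⟨c, hc, C, hC, hb⟩ := kdec' hKD hF hK (R := |p.1| + 1) (by positivity)
    (half_pos ht) (show t / 2 < 2 * t by linarith)
  have hπ := Real.pi_pos
  set G : ℕ → ℝ → ℝ := fun k x => rh F p.1 * (wt F (r, x) k * K (2 * k) t p.1 r) *
      Real.cos (((2 * k : ℕ) : ℝ) * p.2 + -(2 * k * x)) * Real.cos (2 * n * x + θ) with hG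
  have e1 : ∀ x : ℝ, HW F K t p (r, x) * Real.cos (2 * n * x + θ) = ∑' k, G k x := by
    intro x
    rw [HW_eq' hKD hF hK (r, x) ht p, ← tsum_mul_right]
  simp_rw [e1]
  have hwt : ∀ k x, wt F (r, x) k = (if k = 0 then 1 else 2) * Real.pi⁻¹ * rh F r := by
    intro k x
    unfold wt rh
    ring
  have hGc : ∀ k, Continuous (G k) := by
    intro k
    simp only [hG, hwt]
    fun_prop
  have hGb : ∀ k x, |G k x| ≤ |rh F p.1| * (2 * Real.pi⁻¹ * |rh F r|) * mj C c k := by
    intro k x
    simp only [hG, hwt]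
    have h1 := (hb (2 * k) r t ⟨by linarith, by linarith⟩ p.1 (by linarith)).1
    have h2 := Real.abs_cos_le_one (((2 * k : ℕ) : ℝ) * p.2 + -(2 * k * x))
    have h3 := Real.abs_cos_le_one (2 * n * x + θ)
    have h4 : |(if k = 0 then (1 : ℝ) else 2) * Real.pi⁻¹ * rh F r| ≤
        2 * Real.pi⁻¹ * |rh F r| := by
      rw [abs_mul, abs_mul, abs_of_pos (inv_pos.mpr hπ)]
      refine mul_le_mul_of_nonneg_right (mul_le_mul_of_nonneg_right ?_ (by positivity))
        (abs_nonneg _)
      split_ifs <;> norm_num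
    rw [abs_mul, abs_mul, abs_mul, abs_mul]
    have h5 : |(if k = 0 then (1 : ℝ) else 2) * Real.pi⁻¹ * rh F r| * |K (2 * k) t p.1 r| ≤
        2 * Real.pi⁻¹ * |rh F r| * mj C c k :=
      mul_le_mul h4 h1 (abs_nonneg _) (by positivity)
    have h6 : 0 ≤ |(if k = 0 then (1 : ℝ) else 2) * Real.pi⁻¹ * rh F r| * |K (2 * k) t p.1 r| := by
      positivity
    calc |rh F p.1| * (|(if k = 0 then (1 : ℝ) else 2) * Real.pi⁻¹ * rh F r| *
          |K (2 * k) t p.1 r|) *
          |Real.cos (((2 * k : ℕ) : ℝ) * p.2 + -(2 * k * x))| * |Real.cos (2 * n * x + θ)|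
        ≤ |rh F p.1| * (|(if k = 0 then (1 : ℝ) else 2) * Real.pi⁻¹ * rh F r| *
          |K (2 * k) t p.1 r|) * 1 * 1 := by
          gcongr
      _ = |rh F p.1| * (|(if k = 0 then (1 : ℝ) else 2) * Real.pi⁻¹ * rh F r| *
          |K (2 * k) t p.1 r|) := by ring
      _ ≤ |rh F p.1| * (2 * Real.pi⁻¹ * |rh F r| * mj C c k) :=
          mul_le_mul_of_nonneg_left h5 (abs_nonneg _)
      _ = _ := by ring
  have hint : ∀ k, Integrable (G k) (volume.restrict (Ioc (0 : ℝ) Real.pi)) := fun k =>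
    ((hGc k).integrableOn_Icc (a := 0) (b := Real.pi)).mono_set Ioc_subset_Icc_self
  have hsum : Summable (fun k => ∫ x in Ioc (0 : ℝ) Real.pi, ‖G k x‖) := by
    refine Summable.of_nonneg_of_le (fun k => integral_nonneg fun x => norm_nonneg _)
      (fun k => ?_) (((mj_sum0 hc C).mul_left
        (|rh F p.1| * (2 * Real.pi⁻¹ * |rh F r|))).mul_left Real.pi)
    have h1 := norm_setIntegral_le_of_norm_le_const (μ := volume) (s := Ioc (0 : ℝ) Real.pi)
      (f := fun x => ‖G k x‖) (C := |rh F p.1| * (2 * Real.pi⁻¹ * |rh F r|) * mj C c k)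
      (by simp) (fun x _ => by rw [norm_norm]; exact hGb k x)
    have h2 : (volume : Measure ℝ).real (Ioc (0 : ℝ) Real.pi) = Real.pi := by
      simp [Measure.real, hπ.le]
    rw [h2] at h1
    refine (le_abs_self _).trans (h1.trans (le_of_eq ?_))
    ring
  rw [← integral_tsum_of_summable_integral_norm hint hsum]
  have hterm : ∀ k, ∫ x in Ioc (0 : ℝ) Real.pi, G k x =
      (rh F p.1 * (rh F r * K (2 * k) t p.1 r)) *
        (if k = n then Real.cos (2 * n * p.2 + θ) else 0) := by
    intro k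
    rw [← ortho k n p.2 θ, intervalIntegral.integral_of_le hπ.le, ← integral_const_mul,
      ← integral_const_mul]
    refine integral_congr_ae (Eventually.of_forall fun x => ?_)
    simp only [hG, hwt]
    ring
  rw [tsum_congr hterm, tsum_eq_single n]
  · rw [if_pos rfl]
  · intro k hk
    rw [if_neg hk, mul_zero]

lemma HW_cont_z (hKD : T_KDEC) (hF : Prof F) (hK : Modes F K) {t : ℝ} (ht : 0 < t) (p : X) :
    Continuous (fun z : X => HW F K t p z) := by
  have h := HW_cont hKD hF hK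
  have h2 : Continuous (fun z : X => (t, p, z)) := by fun_prop
  exact h.comp_continuous h2 fun z => ⟨ht, mem_univ _⟩

lemma integrableOn_strip {g : X → ℝ} (hg : Continuous g) {α : ℝ → ℝ} (hα : HasCompactSupport α)
    (h0 : ∀ z : X, α z.1 = 0 → g z = 0) : IntegrableOn g (univ ×ˢ Ioc 0 Real.pi) := by
  have h1 : IntegrableOn g (tsupport α ×ˢ Icc 0 Real.pi) :=
    hg.continuousOn.integrableOn_compact (hα.isCompact.prod isCompact_Icc)
  refine h1.of_forall_sdiff_eq_zero (MeasurableSet.univ.prod measurableSet_Ioc) ?_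
  intro z hz
  apply h0
  by_contra hne
  exact hz.2 ⟨subset_tsupport _ hne, Ioc_subset_Icc_self hz.1.2⟩

lemma outer (hKD : T_KDEC) (hF : Prof F) (hK : Modes F K) {t : ℝ} (ht : 0 < t) (p : X)
    (n : ℕ) (θ : ℝ) {α : ℝ → ℝ} (hα : Continuous α) (hα2 : HasCompactSupport α) :
    ∫ z in (univ : Set ℝ) ×ˢ Ioc (0 : ℝ) Real.pi,
        HW F K t p z * (α z.1 * Real.cos (2 * n * z.2 + θ)) =
      rh F p.1 * (∫ r, K (2 * n) t p.1 r * (rh F r * α r)) * Real.cos (2 * n * p.2 + θ) := by
  have hc : Continuous (fun z : X => HW F K t p z * (α z.1 * Real.cos (2 * n * z.2 + θ))) := by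
    have := HW_cont_z hKD hF hK ht p
    fun_prop
  have hi := integrableOn_strip hc hα2 (fun z hz => by rw [hz]; ring)
  rw [Measure.volume_eq_prod] at hi ⊢
  rw [setIntegral_prod _ hi, Measure.restrict_univ]
  rw [← integral_const_mul, ← integral_mul_const]
  refine integral_congr_ae (Eventually.of_forall fun r => ?_)
  simp only
  have e : ∀ x : ℝ, HW F K t p (r, x) * (α r * Real.cos (2 * n * x + θ)) =
      α r * (HW F K t p (r, x) * Real.cos (2 * n * x + θ)) := fun x => by ring
  simp_rw [e]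
  rw [integral_const_mul, inner hKD hF hK ht p r n θ]
  ring

/-! ### folding -/

lemma g0_mp : MeasurePreserving (g0 : X → X) volume volume := by
  have h1 : MeasurePreserving (fun x : ℝ => -x) volume volume := Measure.measurePreserving_neg _
  have h2 : MeasurePreserving (fun x : ℝ => x + Real.pi / 2) volume volume :=
    measurePreserving_add_right volume _
  have h3 := h1.prod h2
  exact h3

lemma g0_emb : MeasurableEmbedding (g0 : X → X) := by
  have h : (g0 : X → X) = ((Homeomorph.neg ℝ).prodCongr (Homeomorph.addRight (Real.pi / 2))) := by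
    funext p
    rfl
  rw [h]
  exact Homeomorph.measurableEmbedding _

lemma fold {f h : X → ℝ} (hf : Continuous f) (hh : Continuous h) (hI : GInv h) {α : ℝ → ℝ}
    (hα : HasCompactSupport α) (h0 : ∀ z : X, α z.1 = 0 → h z = 0) :
    ∫ z in {z : X | z.2 ∈ Ioc 0 (Real.pi / 2)}, (f z + f (g0 z)) * h z =
      ∫ z in (univ : Set ℝ) ×ˢ Ioc (0 : ℝ) Real.pi, f z * h z := by
  have hπ := Real.pi_pos
  have hi : IntegrableOn (fun z => f z * h z) (univ ×ˢ Ioc 0 Real.pi) :=
    integrableOn_strip (hf.mul hh) hα (fun z hz => by rw [h0 z hz, mul_zero])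
  have hD : {z : X | z.2 ∈ Ioc 0 (Real.pi / 2)} = (univ : Set ℝ) ×ˢ Ioc (0 : ℝ) (Real.pi / 2) := by
    ext z; simp
  have hpre : (univ : Set ℝ) ×ˢ Ioc (0 : ℝ) (Real.pi / 2) =
      g0 ⁻¹' ((univ : Set ℝ) ×ˢ Ioc (Real.pi / 2) Real.pi) := by
    ext z
    simp only [mem_prod, mem_univ, true_and, mem_Ioc, mem_preimage, g0]
    constructor <;> rintro ⟨h1, h2⟩ <;> constructor <;> linarith
  have hU : (univ : Set ℝ) ×ˢ Ioc (0 : ℝ) Real.pi =
      ((univ : Set ℝ) ×ˢ Ioc (0 : ℝ) (Real.pi / 2)) ∪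
        ((univ : Set ℝ) ×ˢ Ioc (Real.pi / 2) Real.pi) := by
    rw [← prod_union, Ioc_union_Ioc_eq_Ioc (by linarith) (by linarith)]
  have hdis : Disjoint ((univ : Set ℝ) ×ˢ Ioc (0 : ℝ) (Real.pi / 2))
      ((univ : Set ℝ) ×ˢ Ioc (Real.pi / 2) Real.pi) := by
    rw [Set.disjoint_left]
    rintro z ⟨_, h1⟩ ⟨_, h2⟩
    exact absurd h1.2 (not_le.mpr h2.1)
  rw [hU] at hi
  have hi1 := hi.mono_set subset_union_left
  have hi2 := hi.mono_set subset_union_right
  have e2 : ∫ z in (univ : Set ℝ) ×ˢ Ioc (0 : ℝ) (Real.pi / 2), f (g0 z) * h z =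
      ∫ z in (univ : Set ℝ) ×ˢ Ioc (Real.pi / 2) Real.pi, f z * h z := by
    rw [← g0_mp.setIntegral_preimage_emb g0_emb (fun z => f z * h z), ← hpre]
    refine integral_congr_ae (Eventually.of_forall fun z => ?_)
    simp only
    rw [hI z]
  have hi3 : IntegrableOn (fun z => f (g0 z) * h z)
      ((univ : Set ℝ) ×ˢ Ioc (0 : ℝ) (Real.pi / 2)) := by
    have h1 := (g0_mp.integrableOn_comp_preimage g0_emb (f := fun z => f z * h z)
      (s := (univ : Set ℝ) ×ˢ Ioc (Real.pi / 2) Real.pi)).mpr hi2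
    rw [← hpre] at h1
    refine h1.congr_fun (fun z _ => ?_) (MeasurableSet.univ.prod measurableSet_Ioc)
    simp only [Function.comp_def]
    rw [hI z]
  rw [hD, hU, setIntegral_union hdis (MeasurableSet.univ.prod measurableSet_Ioc) hi1 hi2, ← e2,
    ← integral_add hi1 hi3]
  refine integral_congr_ae (Eventually.of_forall fun z => ?_)
  simp only
  ring

end

theorem pd (hFB : T_FB) (hVM : T_VM) (hAP : T_APP) (hKD : T_KDEC) (hSE : T_SEP) (hE : T_KEV) :
    T_PD := by
  intro F K hF hK N a b ha hb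
  have hFc := hF.smooth.continuous
  have hsq : Continuous (fun s => √(F s)) := by fun_prop
  have hsqne : ∀ s, √(F s) ≠ 0 := fun s => (Real.sqrt_pos.mpr (hF.pos s)).ne'
  have hA : ∀ {a : ℕ → ℝ → ℝ}, Coef a → ∀ n, Continuous (fun s => √(F s) * a n s) ∧
      HasCompactSupport (fun s => √(F s) * a n s) ∧
      ∀ s, √(F (-s)) * a n (-s) = (-1) ^ n * (√(F s) * a n s) := by
    intro a ha n
    refine ⟨hsq.mul (ha n).1, (ha n).2.1.mul_left, fun s => ?_⟩
    rw [hF.even, (ha n).2.2]
    ring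
  have hutr : ∀ t p, utr F K N a b t p = ∑ n ∈ Finset.range N,
      ((√(F p.1))⁻¹ * app (K (2 * n)) (fun s => √(F s) * a n s) t p.1 *
          Real.cos (((2 * n : ℕ) : ℝ) * p.2 + 0) +
        (√(F p.1))⁻¹ * app (K (2 * n)) (fun s => √(F s) * b n s) t p.1 *
          Real.cos (((2 * n : ℕ) : ℝ) * p.2 + -(Real.pi / 2))) := by
    intro t p
    unfold utr
    refine Finset.sum_congr rfl fun n _ => ?_
    have e1 : ((2 * n : ℕ) : ℝ) * p.2 + 0 = 2 * n * p.2 := by push_cast; ring
    have e2 : Real.cos (((2 * n : ℕ) : ℝ) * p.2 + -(Real.pi / 2)) = Real.sin (2 * n * p.2) := by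
      rw [← sub_eq_add_neg, Real.cos_sub_pi_div_two]
      congr 1
      push_cast; ring
    rw [e1, e2]
    ring
  obtain ⟨K0, hfb⟩ := hFB F hF
  refine ⟨⟨?_, ?_, ?_, ?_⟩, ?_, ?_⟩
  · -- classical
    have : utr F K N a b = fun t p => ∑ n ∈ Finset.range N,
      ((√(F p.1))⁻¹ * app (K (2 * n)) (fun s => √(F s) * a n s) t p.1 *
          Real.cos (((2 * n : ℕ) : ℝ) * p.2 + 0) +
        (√(F p.1))⁻¹ * app (K (2 * n)) (fun s => √(F s) * b n s) t p.1 *
          Real.cos (((2 * n : ℕ) : ℝ) * p.2 + -(Real.pi / 2))) := by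
      funext t p
      exact hutr t p
    rw [this]
    refine Cl_sum _ fun n _ => Cl.add' ?_ ?_
    · exact Cl_sep hSE hF (2 * n) 0
        (app_facts hVM hAP hF hK (2 * n) (hA ha n).1 (hA ha n).2.1).2.1
    · exact Cl_sep hSE hF (2 * n) (-(Real.pi / 2))
        (app_facts hVM hAP hF hK (2 * n) (hA hb n).1 (hA hb n).2.1).2.1
  · -- continuity
    unfold utr
    refine continuousOn_finsetSum _ fun n _ => ?_
    have hcc : Continuous (fun z : ℝ × X => (z.1, z.2.1)) := by fun_prop
    have h1 := (app_facts hVM hAP hF hK (2 * n) (hA ha n).1 (hA ha n).2.1).1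
    have h2 := (app_facts hVM hAP hF hK (2 * n) (hA hb n).1 (hA hb n).2.1).1
    have h1' : ContinuousOn (fun z : ℝ × X =>
        app (K (2 * n)) (fun s => √(F s) * a n s) z.1 z.2.1) (Ici 0 ×ˢ univ) :=
      h1.comp hcc.continuousOn (fun z hz => ⟨hz.1, mem_univ _⟩)
    have h2' : ContinuousOn (fun z : ℝ × X =>
        app (K (2 * n)) (fun s => √(F s) * b n s) z.1 z.2.1) (Ici 0 ×ˢ univ) :=
      h2.comp hcc.continuousOn (fun z hz => ⟨hz.1, mem_univ _⟩)
    have h3 : Continuous (fun z : ℝ × X => (√(F z.2.1))⁻¹) :=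
      (hsq.comp (by fun_prop : Continuous fun z : ℝ × X => z.2.1)).inv₀ fun z => hsqne _
    have h4 : Continuous (fun z : ℝ × X => Real.cos (2 * n * z.2.2)) := by fun_prop
    have h5 : Continuous (fun z : ℝ × X => Real.sin (2 * n * z.2.2)) := by fun_prop
    exact h3.continuousOn.mul ((h1'.mul h4.continuousOn).add (h2'.mul h5.continuousOn))
  · -- invariance
    intro t _ p
    unfold utr g0
    refine Finset.sum_congr rfl fun n _ => ?_
    simp only
    rw [cos_shift, sin_shift, hF.even,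
      app_neg hE hF hK (2 * n) n (α := fun s => √(F s) * a n s) (hA ha n).2.2,
      app_neg hE hF hK (2 * n) n (α := fun s => √(F s) * b n s) (hA hb n).2.2]
    have := neg_one_pow_sq n
    linear_combination ((√(F p.1))⁻¹ *
      (app (K (2 * n)) (fun s => √(F s) * a n s) t p.1 * Real.cos (2 * n * p.2) +
      app (K (2 * n)) (fun s => √(F s) * b n s) t p.1 * Real.sin (2 * n * p.2))) * this
  · -- decay
    intro T hT ε hε
    have hF0 : 0 < √(F 0) := Real.sqrt_pos.mpr (hF.pos 0)
    set η := ε * √(F 0) / (2 * (N + 1)) with hη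
    have hηpos : 0 < η := by positivity
    have key : ∀ n, ∃ R, ∀ t ∈ Icc 0 T, ∀ s, R ≤ |s| →
        |app (K (2 * n)) (fun s => √(F s) * a n s) t s| ≤ η ∧
        |app (K (2 * n)) (fun s => √(F s) * b n s) t s| ≤ η := by
      intro n
      obtain ⟨R1, h1⟩ := (app_facts hVM hAP hF hK (2 * n) (hA ha n).1 (hA ha n).2.1).2.2 T hT η
        hηpos
      obtain ⟨R2, h2⟩ := (app_facts hVM hAP hF hK (2 * n) (hA hb n).1 (hA hb n).2.1).2.2 T hT η
        hηpos
      exact ⟨max R1 R2, fun t ht s hs => ⟨h1 t ht s ((le_max_left _ _).trans hs),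
        h2 t ht s ((le_max_right _ _).trans hs)⟩⟩
    choose R hR using key
    refine ⟨∑ n ∈ Finset.range N, |R n|, fun t ht p hp => ?_⟩
    unfold utr
    refine (Finset.abs_sum_le_sum_abs _ _).trans ?_
    have hbd : ∀ n ∈ Finset.range N, |(√(F p.1))⁻¹ *
        (app (K (2 * n)) (fun s => √(F s) * a n s) t p.1 * Real.cos (2 * n * p.2) +
        app (K (2 * n)) (fun s => √(F s) * b n s) t p.1 * Real.sin (2 * n * p.2))| ≤
        ε / (N + 1) := by
      intro n hn
      have hRn : R n ≤ |p.1| := by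
        refine (le_abs_self _).trans (le_trans ?_ hp)
        exact Finset.single_le_sum (f := fun n => |R n|) (fun i _ => abs_nonneg _) hn
      obtain ⟨h1, h2⟩ := hR n t ht p.1 hRn
      have h3 : |(√(F p.1))⁻¹| ≤ (√(F 0))⁻¹ := by
        rw [abs_of_nonneg (by positivity)]
        exact inv_anti₀ hF0 (Real.sqrt_le_sqrt (hfb.m0 _))
      have h4 : |app (K (2 * n)) (fun s => √(F s) * a n s) t p.1 * Real.cos (2 * n * p.2) +
        app (K (2 * n)) (fun s => √(F s) * b n s) t p.1 * Real.sin (2 * n * p.2)| ≤ 2 * η := by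
        refine (abs_add_le _ _).trans ?_
        rw [abs_mul, abs_mul]
        have c1 := Real.abs_cos_le_one (2 * n * p.2)
        have c2 := Real.abs_sin_le_one (2 * n * p.2)
        have d1 : |app (K (2 * n)) (fun s => √(F s) * a n s) t p.1| * |Real.cos (2 * n * p.2)| ≤
            η * 1 := mul_le_mul h1 c1 (abs_nonneg _) hηpos.le
        have d2 : |app (K (2 * n)) (fun s => √(F s) * b n s) t p.1| * |Real.sin (2 * n * p.2)| ≤
            η * 1 := mul_le_mul h2 c2 (abs_nonneg _) hηpos.le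
        linarith
      rw [abs_mul]
      refine (mul_le_mul h3 h4 (abs_nonneg _) (by positivity)).trans (le_of_eq ?_)
      rw [hη]
      field_simp
    refine (Finset.sum_le_sum hbd).trans ?_
    rw [Finset.sum_const, Finset.card_range, nsmul_eq_mul]
    rw [mul_div_assoc', div_le_iff₀ (by positivity)]
    nlinarith
  · -- initial value
    intro p
    unfold utr trg app
    refine Finset.sum_congr rfl fun n _ => ?_
    rw [if_pos le_rfl, if_pos le_rfl]
    have := hsqne p.1
    field_simp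
  · -- formula
    intro t ht p
    -- a compactly supported function dominating all supports
    set α : ℝ → ℝ := fun s => ∑ n ∈ Finset.range N, (|a n s| + |b n s|) with hαd
    have hα : HasCompactSupport α := by
      have : ∀ n, HasCompactSupport (fun s => |a n s| + |b n s|) := fun n =>
        ((ha n).2.1.comp_left (g := fun x : ℝ => |x|) abs_zero).add
          ((hb n).2.1.comp_left (g := fun x : ℝ => |x|) abs_zero)
      exact hcs_sum this N
    have hα0 : ∀ z : X, α z.1 = 0 → trg N a b z * F z.1 = 0 := by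
      intro z hz
      have h1 : ∀ n ∈ Finset.range N, |a n z.1| + |b n z.1| = 0 :=
        (Finset.sum_eq_zero_iff_of_nonneg fun n _ => by positivity).mp hz
      have : trg N a b z = 0 := by
        unfold trg
        refine Finset.sum_eq_zero fun n hn => ?_
        have h2 := h1 n hn
        have h3 : a n z.1 = 0 := by
          have := abs_nonneg (a n z.1); have := abs_nonneg (b n z.1)
          exact abs_eq_zero.mp (by linarith)
        have h4 : b n z.1 = 0 := by
          have := abs_nonneg (a n z.1); have := abs_nonneg (b n z.1)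
          exact abs_eq_zero.mp (by linarith)
        rw [h3, h4]; ring
      rw [this, zero_mul]
    have hac : ∀ n, Continuous (a n) := fun n => (ha n).1
    have hbc : ∀ n, Continuous (b n) := fun n => (hb n).1
    have htc : Continuous (fun z : X => trg N a b z * F z.1) := by
      unfold trg
      refine (continuous_finsetSum _ fun n _ => ?_).mul (hFc.comp continuous_fst)
      have := hac n
      have := hbc n
      fun_prop
    have hti : GInv (fun z : X => trg N a b z * F z.1) := by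
      intro z
      show trg N a b (g0 z) * F (g0 z).1 = trg N a b z * F z.1
      rw [trg_GInv ha hb N z]
      congr 1
      exact hF.even z.1
    have e1 := fold (HW_cont_z hKD hF hK ht p) htc hti hα hα0
    have e2 : ∫ z in {z : X | z.2 ∈ Ioc 0 (Real.pi / 2)}, HM F K t p z * trg N a b z * F z.1 =
        ∫ z in {z : X | z.2 ∈ Ioc 0 (Real.pi / 2)},
          (HW F K t p z + HW F K t p (g0 z)) * (trg N a b z * F z.1) := by
      refine integral_congr_ae (Eventually.of_forall fun z => ?_)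
      simp only [HM]
      ring
    rw [e2, e1]
    -- expand
    have e3 : ∀ z : X, HW F K t p z * (trg N a b z * F z.1) = ∑ n ∈ Finset.range N,
        (HW F K t p z * ((F z.1 * a n z.1) * Real.cos (2 * n * z.2 + 0)) +
          HW F K t p z * ((F z.1 * b n z.1) * Real.cos (2 * n * z.2 + -(Real.pi / 2)))) := by
      intro z
      unfold trg
      rw [Finset.sum_mul, Finset.mul_sum]
      refine Finset.sum_congr rfl fun n _ => ?_
      rw [add_zero, ← sub_eq_add_neg, Real.cos_sub_pi_div_two]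
      ring
    simp_rw [e3]
    have hHc := HW_cont_z hKD hF hK ht p
    have hI : ∀ {a : ℕ → ℝ → ℝ}, Coef a → ∀ (n : ℕ) (θ : ℝ), IntegrableOn
        (fun z : X => HW F K t p z * ((F z.1 * a n z.1) * Real.cos (2 * n * z.2 + θ)))
        (univ ×ˢ Ioc 0 Real.pi) := by
      intro a ha n θ
      have := (ha n).1
      exact integrableOn_strip (by fun_prop) (ha n).2.1 (fun z hz => by rw [hz]; ring)
    have hsum := integral_finsetSum (μ := volume.restrict ((univ : Set ℝ) ×ˢ Ioc 0 Real.pi))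
      (Finset.range N) (f := fun n (z : X) =>
        HW F K t p z * ((F z.1 * a n z.1) * Real.cos (2 * n * z.2 + 0)) +
          HW F K t p z * ((F z.1 * b n z.1) * Real.cos (2 * n * z.2 + -(Real.pi / 2))))
      (fun n _ => (hI ha n 0).add (hI hb n _))
    rw [hsum]
    rw [hutr]
    refine Finset.sum_congr rfl fun n _ => ?_
    have o1 := outer hKD hF hK ht p n 0 (α := fun s => F s * a n s) (hFc.mul (ha n).1)
      (ha n).2.1.mul_left
    have o2 := outer hKD hF hK ht p n (-(Real.pi / 2)) (α := fun s => F s * b n s)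
      (hFc.mul (hb n).1) (hb n).2.1.mul_left
    rw [integral_add (hI ha n 0) (hI hb n _), o1, o2]
    have e4 : ∀ (a : ℕ → ℝ → ℝ), app (K (2 * n)) (fun s => √(F s) * a n s) t p.1 =
        ∫ r, K (2 * n) t p.1 r * (rh F r * (F r * a n r)) := by
      intro a
      unfold app
      rw [if_neg (not_le.mpr ht)]
      refine integral_congr_ae (Eventually.of_forall fun r => ?_)
      simp only
      unfold rh
      have h1 : F r = √(F r) * √(F r) := (Real.mul_self_sqrt (hF.pos r).le).symm
      have h2 := hsqne r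
      congr 1
      conv_rhs => rw [h1]
      have h3 : √(√(F r) * √(F r)) = √(F r) := by rw [← h1]
      rw [h3]
      field_simp
    rw [e4 a, e4 b]
    push_cast
    rfl

end Pool.Agent.H26.HK
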