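import Pool.Agent.H26.HK.Ser

/-!
# MP_e94f6f_an, module SER1: continuity and symmetries of the series
-/

open MeasureTheory Set Filter Topology
open scoped ContDiff

namespace Pool.Agent.H26.HK
open Pool.Agent.H96.HK

/-- terms of the series -/
noncomputable def tm (K : ℕ → ℝ → ℝ → ℝ → ℝ) (n : ℕ) (z : ℝ × X × X) : ℝ :=
  Real.cos (2 * (n + 1) * (z.2.1.2 - z.2.2.2)) * K (2 * (n + 1)) z.1 z.2.1.1 z.2.2.1

lemma tm_cont {F : ℝ → ℝ} {K : ℕ → ℝ → ℝ → ℝ → ℝ} (hK : Modes F K) (n : ℕ) :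
    ContinuousOn (tm K n) (Ioi 0 ×ˢ univ) := by
  unfold tm
  refine ContinuousOn.mul (by fun_prop) ?_
  have h1 := kcont hK (2 * (n + 1))
  have h2 : Continuous (fun z : ℝ × X × X => (z.1, z.2.1.1, z.2.2.1)) := by fun_prop
  exact h1.comp h2.continuousOn (fun z hz => ⟨hz.1, mem_univ _⟩)

lemma tsum_tm_cont (hKD : T_KDEC) {F : ℝ → ℝ} {K : ℕ → ℝ → ℝ → ℝ → ℝ} (hF : Prof F)
    (hK : Modes F K) :
    ContinuousOn (fun z : ℝ × X × X => ∑' n : ℕ, tm K n z) (Ioi 0 ×ˢ univ) := by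
  intro z0 hz0
  have ht0 : 0 < z0.1 := hz0.1
  set R := |z0.2.1.1| + 1 with hR
  have hRpos : 0 < R := by positivity
  obtain ⟨c, hc, C, hC, hb⟩ := kdec' hKD hF hK hRpos (half_pos ht0)
    (show z0.1 / 2 < 2 * z0.1 by linarith)
  set U : Set (ℝ × X × X) := {z | z0.1 / 2 < z.1 ∧ z.1 < 2 * z0.1 ∧ |z.2.1.1| < R} with hU
  have hUo : IsOpen U := by
    have c1 : Continuous (fun z : ℝ × X × X => z.1) := by fun_prop
    have c2 : Continuous (fun z : ℝ × X × X => |z.2.1.1|) := by fun_prop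
    exact (isOpen_lt continuous_const c1).inter
      ((isOpen_lt c1 continuous_const).inter (isOpen_lt c2 continuous_const))
  have hz0U : z0 ∈ U := ⟨by linarith, by linarith, by rw [hR]; linarith⟩
  have hUsub : U ⊆ Ioi 0 ×ˢ univ := fun z hz => ⟨by
    have := hz.1
    show 0 < z.1
    linarith, mem_univ _⟩
  have hcont : ContinuousOn (fun z : ℝ × X × X => ∑' n : ℕ, tm K n z) U := by
    refine continuousOn_tsum (fun n => (tm_cont hK n).mono hUsub) (summable_exp hc C) ?_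
    intro n z hz
    unfold tm
    rw [norm_mul, Real.norm_eq_abs, Real.norm_eq_abs]
    have h1 := (hb (2 * (n + 1)) z.2.2.1 z.1 ⟨hz.1.le, hz.2.1.le⟩ z.2.1.1 hz.2.2.le).1
    calc |Real.cos (2 * (n + 1) * (z.2.1.2 - z.2.2.2))| * |K (2 * (n + 1)) z.1 z.2.1.1 z.2.2.1|
        ≤ 1 * (C * Real.exp (-(c * ((2 * (n + 1) : ℕ) : ℝ)))) :=
          mul_le_mul (Real.abs_cos_le_one _) h1 (abs_nonneg _) zero_le_one
      _ = _ := one_mul _
  exact (hcont.continuousAt (hUo.mem_nhds hz0U)).continuousWithinAt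

lemma HW_cont (hKD : T_KDEC) {F : ℝ → ℝ} {K : ℕ → ℝ → ℝ → ℝ → ℝ} (hF : Prof F)
    (hK : Modes F K) :
    ContinuousOn (fun z : ℝ × X × X => HW F K z.1 z.2.1 z.2.2) (Ioi 0 ×ˢ univ) := by
  unfold HW
  have hFc := hF.smooth.continuous
  have h0 : ContinuousOn (fun z : ℝ × X × X => K 0 z.1 z.2.1.1 z.2.2.1) (Ioi 0 ×ˢ univ) := by
    have h1 := kcont hK 0
    have h2 : Continuous (fun z : ℝ × X × X => (z.1, z.2.1.1, z.2.2.1)) := by fun_prop
    exact h1.comp h2.continuousOn (fun z hz => ⟨hz.1, mem_univ _⟩)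
  have h1 : Continuous (fun z : ℝ × X × X => (√(F z.2.1.1 * F z.2.2.1))⁻¹) := by
    refine Continuous.inv₀ (by fun_prop) fun z => ?_
    exact (Real.sqrt_pos.mpr (mul_pos (hF.pos _) (hF.pos _))).ne'
  refine ((continuous_const.mul h1).continuousOn).mul (h0.add (continuousOn_const.mul ?_))
  exact tsum_tm_cont hKD hF hK

lemma HW_symm (hS : T_SYM) {F : ℝ → ℝ} {K : ℕ → ℝ → ℝ → ℝ → ℝ} (hF : Prof F)
    (hK : Modes F K) {t : ℝ} (ht : 0 < t) (p q : X) : HW F K t p q = HW F K t q p := by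
  unfold HW
  rw [mul_comm (F p.1) (F q.1), sym' hS hF hK 0 ht p.1 q.1]
  congr 3
  refine tsum_congr fun n => ?_
  rw [sym' hS hF hK (2 * (n + 1)) ht p.1 q.1]
  congr 1
  rw [← Real.cos_neg]
  congr 1
  ring

lemma HW_pi {F : ℝ → ℝ} {K : ℕ → ℝ → ℝ → ℝ → ℝ} (t : ℝ) (p q : X) :
    HW F K t p (q.1, q.2 + Real.pi) = HW F K t p q := by
  unfold HW
  congr 3
  refine tsum_congr fun n => ?_
  congr 1
  have h1 : 2 * ((n : ℝ) + 1) * (p.2 - (q.2 + Real.pi)) =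
      2 * ((n : ℝ) + 1) * (p.2 - q.2) - ((n + 1 : ℕ) : ℝ) * (2 * Real.pi) := by
    push_cast; ring
  show Real.cos (2 * ((n : ℝ) + 1) * (p.2 - (q.2 + Real.pi))) = _
  rw [h1, Real.cos_sub_nat_mul_two_pi]

lemma HW_g0 (hE : T_KEV) {F : ℝ → ℝ} {K : ℕ → ℝ → ℝ → ℝ → ℝ} (hF : Prof F)
    (hK : Modes F K) {t : ℝ} (ht : 0 < t) (p q : X) :
    HW F K t (g0 p) (g0 q) = HW F K t p q := by
  unfold HW g0
  simp only [hF.even]
  rw [kev' hE hF hK 0 ht]
  congr 3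
  refine tsum_congr fun n => ?_
  rw [kev' hE hF hK (2 * (n + 1)) ht]
  congr 2
  ring

lemma g0_g0 (p : X) : g0 (g0 p) = (p.1, p.2 + Real.pi) := by
  unfold g0
  ext
  · simp
  · simp only; ring

theorem ser1 (hKD : T_KDEC) (hS : T_SYM) (hE : T_KEV) : T_SER1 := by
  intro F K hF hK
  have h2 : ∀ t > 0, ∀ p q, HW F K t p (g0 q) = HW F K t q (g0 p) := by
    intro t ht p q
    rw [HW_symm hS hF hK ht p (g0 q), ← HW_g0 hE hF hK ht (g0 q) p, g0_g0,
      HW_symm hS hF hK ht, HW_pi, HW_symm hS hF hK ht]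
  refine ⟨?_, ?_, ?_⟩
  · unfold HM
    refine (HW_cont hKD hF hK).add ?_
    have hc : Continuous (fun z : ℝ × X × X => (z.1, z.2.1, g0 z.2.2)) := by
      unfold g0; fun_prop
    exact (HW_cont hKD hF hK).comp hc.continuousOn (fun z hz => ⟨hz.1, mem_univ _⟩)
  · intro t ht p q
    unfold HM
    rw [HW_symm hS hF hK ht p q, h2 t ht p q]
  · intro t ht q p
    show HM F K t (g0 p) q = HM F K t p q
    unfold HM
    rw [HW_g0 hE hF hK ht p q, add_comm]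
    congr 1
    rw [← HW_g0 hE hF hK ht (g0 p) q, g0_g0, HW_symm hS hF hK ht, HW_pi,
      HW_symm hS hF hK ht]

end Pool.Agent.H26.HK
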