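import Pool.Agent.H96.HK.Basic

/-!
# MP_e94f6f_an: common lemmas for the series of the heat kernel (modules SER1, SER2, PD)
-/

open MeasureTheory Set Filter Topology
open scoped ContDiff

namespace Pool.Agent.H26.HK
open Pool.Agent.H96.HK

lemma deriv_of_even {F : ℝ → ℝ} (h : ∀ s, F (-s) = F s) (s : ℝ) :
    deriv F (-s) = -deriv F s := by
  have h1 : (fun x => F (-x)) = F := funext h
  have h2 := deriv_comp_neg F s
  rw [h1] at h2
  linarith

lemma deriv_of_odd {F : ℝ → ℝ} (h : ∀ s, F (-s) = -F s) (s : ℝ) :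
    deriv F (-s) = deriv F s := by
  have h1 : (fun x => F (-x)) = fun x => -F x := funext h
  have h2 := deriv_comp_neg F s
  rw [h1, deriv.fun_neg] at h2
  linarith

lemma Vm_even {F : ℝ → ℝ} (hF : Prof F) (m : ℕ) (s : ℝ) : Vm F m (-s) = Vm F m s := by
  unfold Vm
  rw [hF.even, deriv_of_odd (fun s => deriv_of_even hF.even s), deriv_of_even hF.even]
  ring

lemma smooth_deriv {F : ℝ → ℝ} (h : ContDiff ℝ ∞ F) : ContDiff ℝ ∞ (deriv F) :=
  (contDiff_infty_iff_deriv.mp h).2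

lemma Vm_continuous {F : ℝ → ℝ} (hF : Prof F) (m : ℕ) : Continuous (Vm F m) := by
  have h0 := hF.smooth.continuous
  have h1 := (smooth_deriv hF.smooth).continuous
  have h2 := (smooth_deriv (smooth_deriv hF.smooth)).continuous
  have hne : ∀ s, F s ≠ 0 := fun s => (hF.pos s).ne'
  unfold Vm
  refine ((continuous_const.div (h0.pow 2) fun s => pow_ne_zero 2 (hne s)).add
    (h2.div (continuous_const.mul h0) fun s => mul_ne_zero two_ne_zero (hne s))).sub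
    (((h1.div h0 hne).pow 2).div_const 4)

/-- the bounds of `KDEC` for the kernels `K m` -/
lemma kdec' (h : T_KDEC) {F : ℝ → ℝ} {K : ℕ → ℝ → ℝ → ℝ → ℝ} (hF : Prof F) (hK : Modes F K)
    {R δ T : ℝ} (hR : 0 < R) (hδ : 0 < δ) (hT : δ < T) :
    ∃ c > 0, ∃ C > 0, ∀ (m : ℕ) (r : ℝ), ∀ t ∈ Icc δ T, ∀ s, |s| ≤ R →
      |K m t s r| ≤ C * Real.exp (-(c * m)) ∧
      |deriv (fun x => K m t x r) s| ≤ C * Real.exp (-(c * m)) ∧
      |deriv (deriv (fun x => K m t x r)) s| ≤ C * Real.exp (-(c * m)) ∧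
      |deriv (fun τ => K m τ s r) t| ≤ C * Real.exp (-(c * m)) := by
  obtain ⟨c, hc, C, hC, hb⟩ := h F hF R hR δ T hδ hT
  refine ⟨c, hc, C, hC, fun m r t ht s hs => ?_⟩
  obtain ⟨B, hB1, hB2, hB3⟩ := hK m
  exact hb m B (K m) hB2 hB1 hB3 r t ht s hs

lemma sym' (h : T_SYM) {F : ℝ → ℝ} {K : ℕ → ℝ → ℝ → ℝ → ℝ} (hF : Prof F) (hK : Modes F K)
    (m : ℕ) {t : ℝ} (ht : 0 < t) (s r : ℝ) : K m t s r = K m t r s := by
  obtain ⟨B, hB1, hB2, hB3⟩ := hK m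
  exact h (Vm F m) B B B (K m) (K m) (Vm_continuous hF m) hB2 hB3 hB3 t ht s r

lemma kev' (h : T_KEV) {F : ℝ → ℝ} {K : ℕ → ℝ → ℝ → ℝ → ℝ} (hF : Prof F) (hK : Modes F K)
    (m : ℕ) {t : ℝ} (ht : 0 < t) (s r : ℝ) : K m t (-s) (-r) = K m t s r := by
  obtain ⟨B, hB1, hB2, hB3⟩ := hK m
  exact h (Vm F m) B (K m) (Vm_continuous hF m) hB2 (Vm_even hF m) hB3 t ht s r

lemma kcont {F : ℝ → ℝ} {K : ℕ → ℝ → ℝ → ℝ → ℝ} (hK : Modes F K) (m : ℕ) :
    ContinuousOn (fun z : ℝ × ℝ × ℝ => K m z.1 z.2.1 z.2.2) (Ioi 0 ×ˢ univ) := by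
  obtain ⟨B, hB1, hB2, hB3⟩ := hK m
  exact hB3.cont

/-- summability of the majorant -/
lemma summable_exp {c : ℝ} (hc : 0 < c) (C : ℝ) :
    Summable (fun n : ℕ => C * Real.exp (-(c * ((2 * (n + 1) : ℕ) : ℝ)))) := by
  have h1 : ∀ n : ℕ, C * Real.exp (-(c * ((2 * (n + 1) : ℕ) : ℝ))) =
      (C * Real.exp (-(2 * c))) * (Real.exp (-(2 * c))) ^ n := by
    intro n
    rw [mul_assoc, ← Real.exp_nat_mul, ← Real.exp_add]
    congr 2
    push_cast
    ring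
  simp_rw [h1]
  refine Summable.mul_left _ (summable_geometric_of_lt_one (Real.exp_pos _).le ?_)
  rw [Real.exp_lt_one_iff]
  linarith

end Pool.Agent.H26.HK
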