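import Pool.Agent.H26.HK.Ser

/-!
# MP_e94f6f_an: series of products of functions of one variable (for module SER2)
-/

open MeasureTheory Set Filter Topology
open scoped ContDiff

namespace Pool.Agent.H26.HK
open Pool.Agent.H96.HK

/-- sum of products -/
noncomputable def SP (a b : ℕ → ℝ → ℝ) (p : X) : ℝ := ∑' n, a n p.1 * b n p.2

/-- bounds for a series of products on the strip `|s| < R` -/
structure SB (a b : ℕ → ℝ → ℝ) (u v : ℕ → ℝ) (R : ℝ) : Prop where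
  sm : Summable (fun n => u n * v n)
  u0 : ∀ n, 0 ≤ u n
  v0 : ∀ n, 0 ≤ v n
  ha : ∀ n s, |s| < R → |a n s| ≤ u n
  hb : ∀ n φ, |b n φ| ≤ v n

lemma SB.term {a b : ℕ → ℝ → ℝ} {u v : ℕ → ℝ} {R : ℝ} (h : SB a b u v R) (n : ℕ) {p : X}
    (hp : |p.1| < R) : |a n p.1 * b n p.2| ≤ u n * v n := by
  rw [abs_mul]
  exact mul_le_mul (h.ha n _ hp) (h.hb n _) (abs_nonneg _) (h.u0 n)

lemma SB.summable {a b : ℕ → ℝ → ℝ} {u v : ℕ → ℝ} {R : ℝ} (h : SB a b u v R) {p : X}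
    (hp : |p.1| < R) : Summable (fun n => a n p.1 * b n p.2) :=
  Summable.of_norm_bounded h.sm fun n => h.term n hp

lemma strip_open (R : ℝ) : IsOpen {p : X | |p.1| < R} :=
  isOpen_lt (by fun_prop) continuous_const

lemma strip_convex (R : ℝ) : Convex ℝ {p : X | |p.1| < R} := by
  have : {p : X | |p.1| < R} = (Ioo (-R) R) ×ˢ (univ : Set ℝ) := by
    ext p
    simp [abs_lt]
  rw [this]
  exact (convex_Ioo _ _).prod convex_univ

lemma SP_continuousOn {a b : ℕ → ℝ → ℝ} {u v : ℕ → ℝ} {R : ℝ} (h : SB a b u v R)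
    (ha : ∀ n, Continuous (a n)) (hb : ∀ n, Continuous (b n)) :
    ContinuousOn (SP a b) {p : X | |p.1| < R} := by
  unfold SP
  refine continuousOn_tsum (fun n => ?_) h.sm (fun n p hp => h.term n hp)
  exact (((ha n).comp continuous_fst).mul ((hb n).comp continuous_snd)).continuousOn

lemma SP_hasFDerivAt {a a' b b' : ℕ → ℝ → ℝ} {u v : ℕ → ℝ} {R : ℝ} (h : SB a b u v R)
    (h1 : SB a' b u v R) (h2 : SB a b' u v R)
    (ha : ∀ n s, HasDerivAt (a n) (a' n s) s) (hb : ∀ n φ, HasDerivAt (b n) (b' n φ) φ)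
    {p : X} (hp : |p.1| < R) :
    HasFDerivAt (SP a b) (SP a' b p • ContinuousLinearMap.fst ℝ ℝ ℝ +
      SP a b' p • ContinuousLinearMap.snd ℝ ℝ ℝ) p := by
  have hsum : Summable (fun n => 2 * (u n * v n)) := h.sm.mul_left 2
  have key := hasFDerivAt_tsum_of_isPreconnected (𝕜 := ℝ) (f := fun n (p : X) => a n p.1 * b n p.2)
    (f' := fun n (p : X) => (a' n p.1 * b n p.2) • ContinuousLinearMap.fst ℝ ℝ ℝ +
      (a n p.1 * b' n p.2) • ContinuousLinearMap.snd ℝ ℝ ℝ) hsum (strip_open R)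
    (strip_convex R).isPreconnected ?_ ?_ (x₀ := p) hp (h.summable hp) (x := p) hp
  · have e : (∑' n, ((a' n p.1 * b n p.2) • ContinuousLinearMap.fst ℝ ℝ ℝ +
        (a n p.1 * b' n p.2) • ContinuousLinearMap.snd ℝ ℝ ℝ)) =
        SP a' b p • ContinuousLinearMap.fst ℝ ℝ ℝ +
          SP a b' p • ContinuousLinearMap.snd ℝ ℝ ℝ := by
      rw [Summable.tsum_add ((h1.summable hp).smul_const _) ((h2.summable hp).smul_const _),
        (h1.summable hp).tsum_smul_const, (h2.summable hp).tsum_smul_const]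
      rfl
    rw [← e]
    exact key
  · intro n x _
    have e1 : HasFDerivAt (fun p : X => a n p.1) (a' n x.1 • ContinuousLinearMap.fst ℝ ℝ ℝ) x :=
      (ha n x.1).comp_hasFDerivAt x hasFDerivAt_fst
    have e2 : HasFDerivAt (fun p : X => b n p.2) (b' n x.2 • ContinuousLinearMap.snd ℝ ℝ ℝ) x :=
      (hb n x.2).comp_hasFDerivAt x hasFDerivAt_snd
    have e3 := e1.mul e2
    refine e3.congr_fderiv ?_
    rw [smul_smul, smul_smul, add_comm]
    congr 2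
    · ring
  · intro n x hx
    have n1 : ‖(a' n x.1 * b n x.2) • ContinuousLinearMap.fst ℝ ℝ ℝ‖ ≤ u n * v n := by
      rw [norm_smul]
      calc ‖a' n x.1 * b n x.2‖ * ‖ContinuousLinearMap.fst ℝ ℝ ℝ‖ ≤ (u n * v n) * 1 :=
            mul_le_mul (h1.term n hx) (ContinuousLinearMap.norm_fst_le ℝ ℝ ℝ) (norm_nonneg _)
              (mul_nonneg (h.u0 n) (h.v0 n))
        _ = _ := mul_one _
    have n2 : ‖(a n x.1 * b' n x.2) • ContinuousLinearMap.snd ℝ ℝ ℝ‖ ≤ u n * v n := by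
      rw [norm_smul]
      calc ‖a n x.1 * b' n x.2‖ * ‖ContinuousLinearMap.snd ℝ ℝ ℝ‖ ≤ (u n * v n) * 1 :=
            mul_le_mul (h2.term n hx) (ContinuousLinearMap.norm_snd_le ℝ ℝ ℝ) (norm_nonneg _)
              (mul_nonneg (h.u0 n) (h.v0 n))
        _ = _ := mul_one _
    refine (norm_add_le _ _).trans ?_
    linarith

/-- the sum of products with two derivatives in each variable -/
structure SP2 (a a' a'' b b' b'' : ℕ → ℝ → ℝ) (u v : ℕ → ℝ) (R : ℝ) : Prop where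
  sm : Summable (fun n => u n * v n)
  u0 : ∀ n, 0 ≤ u n
  v0 : ∀ n, 0 ≤ v n
  ha : ∀ n s, HasDerivAt (a n) (a' n s) s
  ha' : ∀ n s, HasDerivAt (a' n) (a'' n s) s
  hac : ∀ n, Continuous (a'' n)
  hb : ∀ n φ, HasDerivAt (b n) (b' n φ) φ
  hb' : ∀ n φ, HasDerivAt (b' n) (b'' n φ) φ
  hbc : ∀ n, Continuous (b'' n)
  ba : ∀ n s, |s| < R → |a n s| ≤ u n
  ba' : ∀ n s, |s| < R → |a' n s| ≤ u n
  ba'' : ∀ n s, |s| < R → |a'' n s| ≤ u n
  bb : ∀ n φ, |b n φ| ≤ v n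
  bb' : ∀ n φ, |b' n φ| ≤ v n
  bb'' : ∀ n φ, |b'' n φ| ≤ v n

section
variable {a a' a'' b b' b'' : ℕ → ℝ → ℝ} {u v : ℕ → ℝ} {R : ℝ}

lemma SP2.ca (h : SP2 a a' a'' b b' b'' u v R) (n : ℕ) : Continuous (a n) :=
  continuous_iff_continuousAt.mpr fun s => (h.ha n s).continuousAt
lemma SP2.ca' (h : SP2 a a' a'' b b' b'' u v R) (n : ℕ) : Continuous (a' n) :=
  continuous_iff_continuousAt.mpr fun s => (h.ha' n s).continuousAt
lemma SP2.cb (h : SP2 a a' a'' b b' b'' u v R) (n : ℕ) : Continuous (b n) :=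
  continuous_iff_continuousAt.mpr fun s => (h.hb n s).continuousAt
lemma SP2.cb' (h : SP2 a a' a'' b b' b'' u v R) (n : ℕ) : Continuous (b' n) :=
  continuous_iff_continuousAt.mpr fun s => (h.hb' n s).continuousAt

lemma SP2.s00 (h : SP2 a a' a'' b b' b'' u v R) : SB a b u v R := ⟨h.sm, h.u0, h.v0, h.ba, h.bb⟩
lemma SP2.s10 (h : SP2 a a' a'' b b' b'' u v R) : SB a' b u v R := ⟨h.sm, h.u0, h.v0, h.ba', h.bb⟩
lemma SP2.s20 (h : SP2 a a' a'' b b' b'' u v R) : SB a'' b u v R :=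
  ⟨h.sm, h.u0, h.v0, h.ba'', h.bb⟩
lemma SP2.s01 (h : SP2 a a' a'' b b' b'' u v R) : SB a b' u v R := ⟨h.sm, h.u0, h.v0, h.ba, h.bb'⟩
lemma SP2.s02 (h : SP2 a a' a'' b b' b'' u v R) : SB a b'' u v R :=
  ⟨h.sm, h.u0, h.v0, h.ba, h.bb''⟩
lemma SP2.s11 (h : SP2 a a' a'' b b' b'' u v R) : SB a' b' u v R :=
  ⟨h.sm, h.u0, h.v0, h.ba', h.bb'⟩

lemma SP2.d00 (h : SP2 a a' a'' b b' b'' u v R) {p : X} (hp : |p.1| < R) :
    HasFDerivAt (SP a b) (SP a' b p • ContinuousLinearMap.fst ℝ ℝ ℝ +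
      SP a b' p • ContinuousLinearMap.snd ℝ ℝ ℝ) p :=
  SP_hasFDerivAt h.s00 h.s10 h.s01 h.ha h.hb hp

lemma SP2.d10 (h : SP2 a a' a'' b b' b'' u v R) {p : X} (hp : |p.1| < R) :
    HasFDerivAt (SP a' b) (SP a'' b p • ContinuousLinearMap.fst ℝ ℝ ℝ +
      SP a' b' p • ContinuousLinearMap.snd ℝ ℝ ℝ) p :=
  SP_hasFDerivAt h.s10 h.s20 h.s11 h.ha' h.hb hp

lemma SP2.d01 (h : SP2 a a' a'' b b' b'' u v R) {p : X} (hp : |p.1| < R) :
    HasFDerivAt (SP a b') (SP a' b' p • ContinuousLinearMap.fst ℝ ℝ ℝ +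
      SP a b'' p • ContinuousLinearMap.snd ℝ ℝ ℝ) p :=
  SP_hasFDerivAt h.s01 h.s11 h.s02 h.ha h.hb' hp

/-- a function whose partial derivatives are continuous is `C¹` -/
lemma contDiffAt_one_of {f g1 g2 : X → ℝ} {U : Set X} (hU : IsOpen U)
    (hf : ∀ p ∈ U, HasFDerivAt f (g1 p • ContinuousLinearMap.fst ℝ ℝ ℝ +
      g2 p • ContinuousLinearMap.snd ℝ ℝ ℝ) p)
    (h1 : ContinuousOn g1 U) (h2 : ContinuousOn g2 U) {p : X} (hp : p ∈ U) :
    ContDiffAt ℝ 1 f p := by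
  have e : (1 : WithTop ℕ∞) = ((0 : ℕ) : WithTop ℕ∞) + 1 := by norm_num
  rw [e, contDiffAt_succ_iff_hasFDerivAt]
  refine ⟨fun p => g1 p • ContinuousLinearMap.fst ℝ ℝ ℝ +
      g2 p • ContinuousLinearMap.snd ℝ ℝ ℝ, ⟨U, hU.mem_nhds hp, hf⟩, ?_⟩
  have : ((0 : ℕ) : WithTop ℕ∞) = 0 := by norm_num
  rw [this, contDiffAt_zero]
  exact ⟨U, hU.mem_nhds hp, (h1.smul continuousOn_const).add (h2.smul continuousOn_const)⟩

lemma SP2.contDiffAt (h : SP2 a a' a'' b b' b'' u v R) {p : X} (hp : |p.1| < R) :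
    ContDiffAt ℝ 2 (SP a b) p := by
  have e : (2 : WithTop ℕ∞) = ((1 : ℕ) : WithTop ℕ∞) + 1 := by norm_num
  rw [e, contDiffAt_succ_iff_hasFDerivAt]
  refine ⟨fun p => SP a' b p • ContinuousLinearMap.fst ℝ ℝ ℝ +
      SP a b' p • ContinuousLinearMap.snd ℝ ℝ ℝ,
    ⟨{p : X | |p.1| < R}, (strip_open R).mem_nhds hp, fun x hx => h.d00 hx⟩, ?_⟩
  have h10 : ContDiffAt ℝ 1 (SP a' b) p :=
    contDiffAt_one_of (strip_open R) (fun x hx => h.d10 hx)
      (SP_continuousOn h.s20 h.hac h.cb) (SP_continuousOn h.s11 h.ca' h.cb') hp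
  have h01 : ContDiffAt ℝ 1 (SP a b') p :=
    contDiffAt_one_of (strip_open R) (fun x hx => h.d01 hx)
      (SP_continuousOn h.s11 h.ca' h.cb') (SP_continuousOn h.s02 h.ca h.hbc) hp
  have : ((1 : ℕ) : WithTop ℕ∞) = 1 := by norm_num
  rw [this]
  exact (h10.smul contDiffAt_const).add (h01.smul contDiffAt_const)

lemma hasDerivAt_fst_of {f : X → ℝ} {x y : ℝ} {p : X}
    (h : HasFDerivAt f (x • ContinuousLinearMap.fst ℝ ℝ ℝ +
      y • ContinuousLinearMap.snd ℝ ℝ ℝ) p) : ds f p = x := by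
  have e1 : HasDerivAt (fun a : ℝ => (a, p.2)) ((1 : ℝ), (0 : ℝ)) p.1 :=
    (hasDerivAt_id p.1).prodMk (hasDerivAt_const p.1 p.2)
  have e2 : HasFDerivAt f (x • ContinuousLinearMap.fst ℝ ℝ ℝ +
      y • ContinuousLinearMap.snd ℝ ℝ ℝ) ((fun a : ℝ => (a, p.2)) p.1) := h
  have e3 := e2.comp_hasDerivAt p.1 e1
  unfold ds
  have e4 := e3.deriv
  simpa [Function.comp_def] using e4

lemma hasDerivAt_snd_of {f : X → ℝ} {x y : ℝ} {p : X}
    (h : HasFDerivAt f (x • ContinuousLinearMap.fst ℝ ℝ ℝ +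
      y • ContinuousLinearMap.snd ℝ ℝ ℝ) p) : dp f p = y := by
  have e1 : HasDerivAt (fun b : ℝ => (p.1, b)) ((0 : ℝ), (1 : ℝ)) p.2 :=
    (hasDerivAt_const p.2 p.1).prodMk (hasDerivAt_id p.2)
  have e2 : HasFDerivAt f (x • ContinuousLinearMap.fst ℝ ℝ ℝ +
      y • ContinuousLinearMap.snd ℝ ℝ ℝ) ((fun b : ℝ => (p.1, b)) p.2) := h
  have e3 := e2.comp_hasDerivAt p.2 e1
  unfold dp
  have e4 := e3.deriv
  simpa [Function.comp_def] using e4

/-- only the values near `p` matter for `ds`, `dp` -/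
lemma ds_congr {f g : X → ℝ} {p : X} (h : f =ᶠ[𝓝 p] g) : ds f p = ds g p := by
  unfold ds
  refine Filter.EventuallyEq.deriv_eq ?_
  have : Tendsto (fun a : ℝ => (a, p.2)) (𝓝 p.1) (𝓝 p) := by
    have : Continuous (fun a : ℝ => (a, p.2)) := by fun_prop
    exact this.tendsto p.1
  exact this.eventually h

lemma dp_congr {f g : X → ℝ} {p : X} (h : f =ᶠ[𝓝 p] g) : dp f p = dp g p := by
  unfold dp
  refine Filter.EventuallyEq.deriv_eq ?_
  have : Tendsto (fun b : ℝ => (p.1, b)) (𝓝 p.2) (𝓝 p) := by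
    have : Continuous (fun b : ℝ => (p.1, b)) := by fun_prop
    exact this.tendsto p.2
  exact this.eventually h

lemma SP2.LB (h : SP2 a a' a'' b b' b'' u v R) (F : ℝ → ℝ) {p : X} (hp : |p.1| < R) :
    LB F (SP a b) p = ∑' n, (a'' n p.1 * b n p.2 + deriv F p.1 / F p.1 * (a' n p.1 * b n p.2) +
      a n p.1 * b'' n p.2 / F p.1 ^ 2) := by
  have hU := (strip_open R).mem_nhds hp
  have e1 : ds (SP a b) =ᶠ[𝓝 p] SP a' b :=
    Filter.eventuallyEq_of_mem hU fun x hx => hasDerivAt_fst_of (h.d00 hx)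
  have e2 : dp (SP a b) =ᶠ[𝓝 p] SP a b' :=
    Filter.eventuallyEq_of_mem hU fun x hx => hasDerivAt_snd_of (h.d00 hx)
  unfold H96.HK.LB
  rw [ds_congr e1, dp_congr e2, hasDerivAt_fst_of (h.d00 hp), hasDerivAt_fst_of (h.d10 hp),
    hasDerivAt_snd_of (h.d01 hp)]
  unfold SP
  rw [← tsum_mul_left, ← tsum_div_const, ← Summable.tsum_add, ← Summable.tsum_add]
  · exact (h.s20.summable hp).add ((h.s10.summable hp).mul_left _)
  · exact (h.s02.summable hp).div_const _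
  · exact h.s20.summable hp
  · exact (h.s10.summable hp).mul_left _

end

end Pool.Agent.H26.HK
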